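import Pool.Agent.H63.Free.Defs

set_option autoImplicit false
open Filter Topology

namespace Pool.Agent.H63.Free

variable {X : Type} [NormedAddCommGroup X] [NormedSpace ℝ X]

/-- The rank one operator `x ↦ z(x) v`. -/
noncomputable abbrev rk1 (z : StrongDual ℝ X) (v : X) : X →L[ℝ] X := z.smulRight v

/-- Finite-rank operators whose functionals lie in `Z`. -/
noncomputable def FZ (Z : Submodule ℝ (StrongDual ℝ X)) : Submodule ℝ (X →L[ℝ] X) :=
  Submodule.span ℝ {W | ∃ z ∈ Z, ∃ v : X, W = rk1 z v}

variable {Z : Submodule ℝ (StrongDual ℝ X)}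

theorem rk1_mem {z : StrongDual ℝ X} (hz : z ∈ Z) (v : X) : rk1 z v ∈ FZ Z :=
  Submodule.subset_span ⟨z, hz, v, rfl⟩

theorem FZ_comp_mem {W : X →L[ℝ] X} (hW : W ∈ FZ Z) (φ : StrongDual ℝ X) : φ.comp W ∈ Z := by
  induction hW using Submodule.span_induction with
  | mem W h =>
    obtain ⟨z, hz, v, rfl⟩ := h
    have : φ.comp (rk1 z v) = (φ v) • z := by
      ext x
      simp [mul_comm]
    rw [this]
    exact Z.smul_mem _ hz
  | zero => simp
  | add a b _ _ ha hb =>
    rw [ContinuousLinearMap.comp_add]
    exact Z.add_mem ha hb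
  | smul c a _ ha =>
    rw [ContinuousLinearMap.comp_smul]
    exact Z.smul_mem _ ha

/-- `FZ` is a left ideal. -/
theorem FZ_left {W : X →L[ℝ] X} (hW : W ∈ FZ Z) (R : X →L[ℝ] X) : R.comp W ∈ FZ Z := by
  induction hW using Submodule.span_induction with
  | mem W h =>
    obtain ⟨z, hz, v, rfl⟩ := h
    have : R.comp (rk1 z v) = rk1 z (R v) := by
      ext x
      simp
    rw [this]
    exact rk1_mem hz _
  | zero => simp
  | add a b _ _ ha hb =>
    rw [ContinuousLinearMap.comp_add]
    exact (FZ Z).add_mem ha hb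
  | smul c a _ ha =>
    rw [ContinuousLinearMap.comp_smul]
    exact (FZ Z).smul_mem _ ha

theorem FZ_right {W : X →L[ℝ] X} {R : X →L[ℝ] X} (hR : R ∈ FZ Z) :
    W.comp R ∈ FZ Z := by
  exact FZ_left hR W

/-- `FZ` operators have finite rank. -/
theorem FZ_finite {W : X →L[ℝ] X} (hW : W ∈ FZ Z) :
    FiniteDimensional ℝ (LinearMap.range W.toLinearMap) := by
  induction hW using Submodule.span_induction with
  | mem W h =>
    obtain ⟨z, hz, v, rfl⟩ := h
    have : LinearMap.range (rk1 z v).toLinearMap ≤ Submodule.span ℝ {v} := by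
      rintro _ ⟨x, rfl⟩
      exact Submodule.smul_mem _ _ (Submodule.mem_span_singleton_self v)
    exact Submodule.finiteDimensional_of_le this
  | zero =>
    have : LinearMap.range (0 : X →L[ℝ] X).toLinearMap = ⊥ := by
      ext x
      constructor
      · rintro ⟨y, rfl⟩
        simp
      · intro hx
        rw [Submodule.mem_bot] at hx
        subst hx
        exact ⟨0, by simp⟩
    rw [this]
    infer_instance
  | add a b _ _ ha hb =>
    have : LinearMap.range (a + b).toLinearMap ≤
        LinearMap.range a.toLinearMap ⊔ LinearMap.range b.toLinearMap := by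
      rintro _ ⟨x, rfl⟩
      exact Submodule.add_mem_sup ⟨x, rfl⟩ ⟨x, rfl⟩
    exact Submodule.finiteDimensional_of_le this
  | smul c a _ ha =>
    have : LinearMap.range (c • a).toLinearMap ≤ LinearMap.range a.toLinearMap := by
      rintro _ ⟨x, rfl⟩
      exact ⟨c • x, by simp⟩
    exact Submodule.finiteDimensional_of_le this

/-- Finite sets controlling an operator of `FZ`. -/
theorem FZ_support {W : X →L[ℝ] X} (hW : W ∈ FZ Z) :
    ∃ (A : Finset X) (Γ : Finset (StrongDual ℝ X)), (∀ g ∈ Γ, g ∈ Z) ∧
      (∀ R : X →L[ℝ] X, (∀ a ∈ A, R a = a) → R.comp W = W) ∧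
      (∀ R : X →L[ℝ] X, (∀ g ∈ Γ, g.comp R = g) → W.comp R = W) := by
  classical
  induction hW using Submodule.span_induction with
  | mem W h =>
    obtain ⟨z, hz, v, rfl⟩ := h
    refine ⟨{v}, {z}, ?_, ?_, ?_⟩
    · intro g hg
      rw [Finset.mem_singleton.mp hg]
      exact hz
    · intro R hR
      have := hR v (Finset.mem_singleton_self v)
      ext x
      simp [this]
    · intro R hR
      have := hR z (Finset.mem_singleton_self z)
      ext x
      have h2 := congrArg (fun φ : StrongDual ℝ X => φ x) this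
      simp only [ContinuousLinearMap.comp_apply] at h2
      simp [h2]
  | zero => exact ⟨∅, ∅, by simp, by simp, by simp⟩
  | add a b _ _ ha hb =>
    obtain ⟨A, Γ, h1, h2, h3⟩ := ha
    obtain ⟨B, Δ, k1, k2, k3⟩ := hb
    refine ⟨A ∪ B, Γ ∪ Δ, ?_, ?_, ?_⟩
    · intro g hg
      rcases Finset.mem_union.mp hg with h | h
      · exact h1 g h
      · exact k1 g h
    · intro R hR
      rw [ContinuousLinearMap.comp_add, h2 R (fun x hx => hR x (Finset.mem_union_left _ hx)),
        k2 R (fun x hx => hR x (Finset.mem_union_right _ hx))]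
    · intro R hR
      rw [ContinuousLinearMap.add_comp, h3 R (fun x hx => hR x (Finset.mem_union_left _ hx)),
        k3 R (fun x hx => hR x (Finset.mem_union_right _ hx))]
  | smul c a _ ha =>
    obtain ⟨A, Γ, h1, h2, h3⟩ := ha
    refine ⟨A, Γ, h1, ?_, ?_⟩
    · intro R hR
      rw [ContinuousLinearMap.comp_smul, h2 R hR]
    · intro R hR
      rw [ContinuousLinearMap.smul_comp, h3 R hR]

/-- Projections onto the span of a finite set of vectors, with functionals in `Z`. -/
theorem exists_proj (htot : ∀ x : X, (∀ z ∈ Z, z x = 0) → x = 0) (A : Finset X) :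
    ∃ P ∈ FZ Z, (∀ a ∈ A, P a = a) ∧ P.comp P = P := by
  classical
  induction A using Finset.induction_on with
  | empty => exact ⟨0, (FZ Z).zero_mem, by simp, by simp⟩
  | insert a A _ ih =>
    obtain ⟨P, hP, hPA, hPP⟩ := ih
    by_cases h : a - P a = 0
    · refine ⟨P, hP, ?_, hPP⟩
      intro b hb
      rcases Finset.mem_insert.mp hb with h2 | h2
      · subst h2
        exact (sub_eq_zero.mp h).symm
      · exact hPA b h2
    · obtain ⟨z, hz, hza⟩ : ∃ z ∈ Z, z (a - P a) ≠ 0 := by
        by_contra hcon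
        push Not at hcon
        exact h (htot _ hcon)
      set z' : StrongDual ℝ X := z - z.comp P with hz'
      have hz'Z : z' ∈ Z := Z.sub_mem hz (FZ_comp_mem hP z)
      have hPPx : ∀ x, P (P x) = P x := fun x => by
        have := congrArg (fun T : X →L[ℝ] X => T x) hPP
        simpa using this
      have hz'P : ∀ x, z' (P x) = 0 := by
        intro x
        simp [hz', hPPx]
      have hz'a : z' (a - P a) ≠ 0 := by
        have : z' (a - P a) = z (a - P a) := by
          simp [hz', hPPx]
        rwa [this]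
      set v : X := (z' (a - P a))⁻¹ • (a - P a) with hv
      have hPv : P v = 0 := by
        have h0 : P (a - P a) = 0 := by rw [map_sub, hPPx, sub_self]
        rw [hv, map_smul, h0, smul_zero]
      have hz'v : z' v = 1 := by
        rw [hv, map_smul, smul_eq_mul, inv_mul_cancel₀ hz'a]
      refine ⟨P + rk1 z' v, (FZ Z).add_mem hP (rk1_mem hz'Z v), ?_, ?_⟩
      · intro b hb
        rcases Finset.mem_insert.mp hb with h2 | h2
        · subst h2
          have h3 : z' b = z' (b - P b) := by rw [map_sub, hz'P, sub_zero]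
          simp only [add_apply, ContinuousLinearMap.smulRight_apply]
          rw [h3, hv, smul_smul, mul_inv_cancel₀ hz'a, one_smul]
          abel
        · have h3 : z' b = 0 := by
            rw [← hPA b h2]
            exact hz'P b
          simp only [add_apply, ContinuousLinearMap.smulRight_apply]
          rw [h3, zero_smul, add_zero, hPA b h2]
      · ext x
        simp only [ContinuousLinearMap.comp_apply, add_apply,
          ContinuousLinearMap.smulRight_apply, map_add, map_smul, hPPx, hPv, hz'P, hz'v]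
        simp

/-- Operators fixing finitely many functionals of `Z`. -/
theorem exists_coproj (Γ : Finset (StrongDual ℝ X)) (hΓ : ∀ g ∈ Γ, g ∈ Z) :
    ∃ Q ∈ FZ Z, (∀ g ∈ Γ, g.comp Q = g) ∧ Q.comp Q = Q := by
  classical
  induction Γ using Finset.induction_on with
  | empty => exact ⟨0, (FZ Z).zero_mem, by simp, by simp⟩
  | insert g Γ _ ih =>
    obtain ⟨Q, hQ, hQG, hQQ⟩ := ih (fun g hg => hΓ g (Finset.mem_insert_of_mem hg))
    have hg : g ∈ Z := hΓ g (Finset.mem_insert_self g Γ)
    by_cases h : g - g.comp Q = 0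
    · refine ⟨Q, hQ, ?_, hQQ⟩
      intro b hb
      rcases Finset.mem_insert.mp hb with h2 | h2
      · subst h2
        exact (sub_eq_zero.mp h).symm
      · exact hQG b h2
    · set g' : StrongDual ℝ X := g - g.comp Q with hg'
      have hg'Z : g' ∈ Z := Z.sub_mem hg (FZ_comp_mem hQ g)
      obtain ⟨x, hx⟩ : ∃ x, g' x ≠ 0 := by
        by_contra hcon
        push Not at hcon
        exact h (by ext x; simpa using hcon x)
      have hQQx : ∀ x, Q (Q x) = Q x := fun x => by
        have := congrArg (fun T : X →L[ℝ] X => T x) hQQ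
        simpa using this
      have hg'Q : ∀ y, g' (Q y) = 0 := by
        intro y
        simp [hg', hQQx]
      set v : X := (g' x)⁻¹ • (x - Q x) with hv
      have hQv : Q v = 0 := by
        have h0 : Q (x - Q x) = 0 := by rw [map_sub, hQQx, sub_self]
        rw [hv, map_smul, h0, smul_zero]
      have hg'v : g' v = 1 := by
        rw [hv, map_smul, map_sub, hg'Q, sub_zero, smul_eq_mul, inv_mul_cancel₀ hx]
      refine ⟨Q + rk1 g' v, (FZ Z).add_mem hQ (rk1_mem hg'Z v), ?_, ?_⟩
      · intro b hb
        rcases Finset.mem_insert.mp hb with h2 | h2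
        · rw [h2]
          ext y
          simp only [ContinuousLinearMap.comp_apply, add_apply,
            ContinuousLinearMap.smulRight_apply, map_add, map_smul, smul_eq_mul]
          have h3 : g v = 1 := by
            have : g' v = g v - g (Q v) := by simp [hg']
            rw [hQv, map_zero, sub_zero] at this
            rw [← this, hg'v]
          rw [h3]
          simp [hg']
        · have h3 := hQG b h2
          ext y
          simp only [ContinuousLinearMap.comp_apply, add_apply,
            ContinuousLinearMap.smulRight_apply, map_add, map_smul, smul_eq_mul]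
          have h4 : ∀ y, b (Q y) = b y := fun y => by
            have := congrArg (fun T : StrongDual ℝ X => T y) h3
            simpa using this
          have h5 : b v = 0 := by rw [← h4 v, hQv, map_zero]
          rw [h4, h5, mul_zero, add_zero]
      · ext y
        simp only [ContinuousLinearMap.comp_apply, add_apply,
          ContinuousLinearMap.smulRight_apply, map_add, map_smul, hQQx, hQv, hg'Q, hg'v]
        simp

/-- Abstract form of the construction: approximations that converge strongly on `X` and whose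
adjoints converge strongly on `Z` can be made commuting. -/
theorem hasCommutingBAP_of (T : ℕ → X →L[ℝ] X) (hTZ : ∀ n, T n ∈ FZ Z) (C : ℝ)
    (hC : ∀ n, ‖T n‖ ≤ C) (hT : ∀ x, Tendsto (fun n => T n x) atTop (𝓝 x))
    (hZ : ∀ z ∈ Z, Tendsto (fun n => z.comp (T n)) atTop (𝓝 z)) : HasCommutingBAP X := by
  classical
  -- `Z` is total
  have htot : ∀ x : X, (∀ z ∈ Z, z x = 0) → x = 0 := by
    intro x hx
    by_contra hne
    obtain ⟨φ, hφ⟩ := SeparatingDual.exists_ne_zero (R := ℝ) hne
    apply hφ
    have h1 : Tendsto (fun n => φ (T n x)) atTop (𝓝 (φ x)) := (φ.continuous.tendsto x).comp (hT x)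
    have h2 : ∀ n, φ (T n x) = 0 := fun n => hx _ (FZ_comp_mem (hTZ n) φ)
    simp only [h2] at h1
    exact (tendsto_nhds_unique h1 tendsto_const_nhds)
  -- convergence on `FZ`
  have hL : ∀ W ∈ FZ Z, Tendsto (fun n => (T n).comp W) atTop (𝓝 W) := by
    intro W hW
    induction hW using Submodule.span_induction with
    | mem W h =>
      obtain ⟨z, hz, v, rfl⟩ := h
      have h1 : ∀ n, (T n).comp (rk1 z v) = rk1 z (T n v) := fun n => by ext x; simp
      simp only [h1]
      have h2 : Continuous (fun w : X => rk1 z w) := (ContinuousLinearMap.smulRightL ℝ X X z).continuous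
      exact (h2.tendsto v).comp (hT v)
    | zero => simp
    | add a b _ _ ha hb =>
      simp only [ContinuousLinearMap.comp_add]
      exact ha.add hb
    | smul c a _ ha =>
      simp only [ContinuousLinearMap.comp_smul]
      exact ha.const_smul c
  have hR : ∀ W ∈ FZ Z, Tendsto (fun n => W.comp (T n)) atTop (𝓝 W) := by
    intro W hW
    induction hW using Submodule.span_induction with
    | mem W h =>
      obtain ⟨z, hz, v, rfl⟩ := h
      have h1 : ∀ n, (rk1 z v).comp (T n) = rk1 (z.comp (T n)) v := fun n => by ext x; simp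
      simp only [h1]
      have h2 : Continuous (fun w : StrongDual ℝ X => rk1 w v) :=
        ((ContinuousLinearMap.smulRightL ℝ X X).flip v).continuous
      exact (h2.tendsto z).comp (hZ z hz)
    | zero => simp
    | add a b _ _ ha hb =>
      simp only [ContinuousLinearMap.add_comp]
      exact ha.add hb
    | smul c a _ ha =>
      simp only [ContinuousLinearMap.smul_comp]
      exact ha.const_smul c
  -- choose the sequence
  have hstep : ∀ s : Finset ((X →L[ℝ] X) × ℕ),
      (∀ p ∈ s, p.1 ∈ FZ Z ∧ ∃ n ≥ p.2, ‖p.1 - T n‖ ≤ 1 / ((p.2 : ℝ) + 1)) →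
      ∃ q : (X →L[ℝ] X) × ℕ, (q.1 ∈ FZ Z ∧ ∃ n ≥ q.2, ‖q.1 - T n‖ ≤ 1 / ((q.2 : ℝ) + 1)) ∧
        ∀ p ∈ s, p.2 < q.2 ∧ q.1.comp p.1 = p.1 ∧ p.1.comp q.1 = p.1 := by
    intro s hs
    have hsup : ∃ (A : Finset X) (Γ : Finset (StrongDual ℝ X)), (∀ g ∈ Γ, g ∈ Z) ∧
      (∀ R : X →L[ℝ] X, (∀ a ∈ A, R a = a) → ∀ p ∈ s, R.comp p.1 = p.1) ∧
      (∀ R : X →L[ℝ] X, (∀ g ∈ Γ, g.comp R = g) → ∀ p ∈ s, p.1.comp R = p.1) := by
      clear hL hR
      induction s using Finset.induction_on with
      | empty => exact ⟨∅, ∅, by simp, by simp, by simp⟩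
      | insert p s _ ih =>
        obtain ⟨A, Γ, h1, h2, h3⟩ := ih (fun q hq => hs q (Finset.mem_insert_of_mem hq))
        obtain ⟨B, Δ, k1, k2, k3⟩ := FZ_support (hs p (Finset.mem_insert_self p s)).1
        refine ⟨A ∪ B, Γ ∪ Δ, ?_, ?_, ?_⟩
        · intro g hg
          rcases Finset.mem_union.mp hg with h | h
          · exact h1 g h
          · exact k1 g h
        · intro R hR q hq
          rcases Finset.mem_insert.mp hq with h | h
          · rw [h]
            exact k2 R (fun x hx => hR x (Finset.mem_union_right _ hx))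
          · exact h2 R (fun x hx => hR x (Finset.mem_union_left _ hx)) q h
        · intro R hR q hq
          rcases Finset.mem_insert.mp hq with h | h
          · rw [h]
            exact k3 R (fun x hx => hR x (Finset.mem_union_right _ hx))
          · exact h3 R (fun x hx => hR x (Finset.mem_union_left _ hx)) q h
    obtain ⟨A, Γ, hΓ, hA1, hΓ1⟩ := hsup
    obtain ⟨P, hP, hPA, _⟩ := exists_proj htot A
    obtain ⟨Q, hQ, hQΓ, _⟩ := exists_coproj Γ hΓ
    set k : ℕ := s.sup (fun p => p.2) + 1 with hk
    -- the corrected operators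
    let S : ℕ → X →L[ℝ] X := fun n =>
      T n + (P - (T n).comp P) + (Q - Q.comp (T n)) - (Q.comp P - (Q.comp (T n)).comp P)
    have hSmem : ∀ n, S n ∈ FZ Z := by
      intro n
      refine (FZ Z).sub_mem ((FZ Z).add_mem ((FZ Z).add_mem (hTZ n)
        ((FZ Z).sub_mem hP (FZ_left hP _))) ((FZ Z).sub_mem hQ (FZ_left (hTZ n) _))) ?_
      exact (FZ Z).sub_mem (FZ_left hP _) (FZ_left hP _)
    have hSlim : Tendsto (fun n => S n - T n) atTop (𝓝 0) := by
      have h1 := hL P hP
      have h2 := hR Q hQ
      have h3 : Tendsto (fun n => (Q.comp (T n)).comp P) atTop (𝓝 (Q.comp P)) := by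
        have hc : Continuous (fun W : X →L[ℝ] X => W.comp P) :=
          ((ContinuousLinearMap.compL ℝ X X X).flip P).continuous
        exact (hc.tendsto Q).comp h2
      have h4 : Tendsto (fun n => (P - (T n).comp P) + (Q - Q.comp (T n)) -
          (Q.comp P - (Q.comp (T n)).comp P)) atTop (𝓝 ((P - P) + (Q - Q) - (Q.comp P - Q.comp P))) :=
        ((tendsto_const_nhds.sub h1).add (tendsto_const_nhds.sub h2)).sub
          (tendsto_const_nhds.sub h3)
      simp only [sub_self, add_zero] at h4
      refine h4.congr (fun n => ?_)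
      simp only [S]
      abel
    have hev : ∀ᶠ n in atTop, ‖S n - T n‖ < 1 / ((k : ℝ) + 1) := by
      have := hSlim.norm
      rw [norm_zero] at this
      exact this.eventually_lt_const (by positivity)
    obtain ⟨n, hn1, hn2⟩ := (hev.and (eventually_ge_atTop k)).exists
    refine ⟨(S n, k), ⟨hSmem n, n, hn2, hn1.le⟩, ?_⟩
    intro p hp
    have hSA : ∀ a ∈ A, S n a = a := by
      intro a ha
      simp only [S, add_apply, sub_apply, ContinuousLinearMap.comp_apply, hPA a ha]
      abel
    have hSΓ : ∀ g ∈ Γ, g.comp (S n) = g := by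
      intro g hg
      have hgQ : ∀ x, g (Q x) = g x := fun x => by
        have := congrArg (fun T : StrongDual ℝ X => T x) (hQΓ g hg)
        simpa using this
      ext x
      simp only [S, ContinuousLinearMap.comp_apply, add_apply, sub_apply, map_add, map_sub, hgQ]
      ring
    refine ⟨?_, hA1 (S n) hSA p hp, hΓ1 (S n) hSΓ p hp⟩
    have : p.2 ≤ s.sup (fun p => p.2) := Finset.le_sup (f := fun p : (X →L[ℝ] X) × ℕ => p.2) hp
    simp only [hk]
    omega
  obtain ⟨f, hf1, hf2⟩ := exists_seq_of_forall_finset_exists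
    (fun p : (X →L[ℝ] X) × ℕ => p.1 ∈ FZ Z ∧ ∃ n ≥ p.2, ‖p.1 - T n‖ ≤ 1 / ((p.2 : ℝ) + 1))
    (fun p q => p.2 < q.2 ∧ q.1.comp p.1 = p.1 ∧ p.1.comp q.1 = p.1) hstep
  have hmono : StrictMono (fun k => (f k).2) := by
    apply strictMono_nat_of_lt_succ
    intro k
    exact (hf2 k (k + 1) (Nat.lt_succ_self k)).1
  have hge : ∀ k, k ≤ (f k).2 := fun k => hmono.id_le k
  refine ⟨fun k => (f k).1, fun k => FZ_finite (hf1 k).1, ⟨C + 1, ?_⟩, ?_, ?_⟩
  · intro k
    obtain ⟨n, _, hn⟩ := (hf1 k).2
    have h1 : ‖(f k).1‖ ≤ ‖(f k).1 - T n‖ + ‖T n‖ := by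
      have := norm_add_le ((f k).1 - T n) (T n)
      simpa using this
    have h2 : 1 / (((f k).2 : ℝ) + 1) ≤ 1 := by
      rw [div_le_one (by positivity)]
      have : (0:ℝ) ≤ ((f k).2 : ℝ) := Nat.cast_nonneg _
      linarith
    linarith [hC n]
  · intro x
    choose m hm1 hm2 using fun k => (hf1 k).2
    have hmt : Tendsto m atTop atTop := by
      refine tendsto_atTop_mono (fun k => (hge k).trans (hm1 k)) tendsto_id
    have h1 : Tendsto (fun k => T (m k) x) atTop (𝓝 x) := (hT x).comp hmt
    have h2 : Tendsto (fun k => ((f k).1 - T (m k)) x) atTop (𝓝 0) := by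
      rw [tendsto_zero_iff_norm_tendsto_zero]
      have h3 : ∀ k, ‖((f k).1 - T (m k)) x‖ ≤ 1 / ((k : ℝ) + 1) * ‖x‖ := by
        intro k
        refine ((f k).1 - T (m k)).le_opNorm x |>.trans ?_
        apply mul_le_mul_of_nonneg_right _ (norm_nonneg x)
        refine (hm2 k).trans ?_
        apply one_div_le_one_div_of_le (by positivity)
        have : (k : ℝ) ≤ ((f k).2 : ℝ) := by exact_mod_cast hge k
        linarith
      have h4 : Tendsto (fun k : ℕ => 1 / ((k : ℝ) + 1) * ‖x‖) atTop (𝓝 (0 * ‖x‖)) :=
        tendsto_one_div_add_atTop_nhds_zero_nat.mul_const _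
      rw [zero_mul] at h4
      exact squeeze_zero (fun k => norm_nonneg _) h3 h4
    have h5 := h2.add h1
    rw [zero_add] at h5
    refine h5.congr (fun k => ?_)
    simp
  · intro j k
    rcases lt_trichotomy j k with h | h | h
    · obtain ⟨_, h1, h2⟩ := hf2 j k h
      rw [h1, h2]
    · rw [h]
    · obtain ⟨_, h1, h2⟩ := hf2 k j h
      rw [h1, h2]

end Pool.Agent.H63.Free
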