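import Mathlib

set_option autoImplicit false
open Filter Topology Module

namespace Pool.Agent.H63.Free

section
variable {V : Type*} [NormedAddCommGroup V] [NormedSpace ℝ V] [FiniteDimensional ℝ V]

/-- Almost extremal bases inside a bounded spanning set. -/
theorem exists_basis_in (Ω : Set V) (hb : ∀ w ∈ Ω, ‖w‖ ≤ 1) (hspan : Submodule.span ℝ Ω = ⊤) :
    ∃ (b : Basis (Fin (finrank ℝ V)) ℝ V), (∀ j, b j ∈ Ω) ∧ ∀ w ∈ Ω, ∀ j, |b.coord j w| ≤ 2 := by
  classical
  set e : Basis (Fin (finrank ℝ V)) ℝ V := finBasis ℝ V with he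
  -- a basis inside Ω
  obtain ⟨b0, hb0⟩ : ∃ b0 : Basis (Fin (finrank ℝ V)) ℝ V, ∀ j, b0 j ∈ Ω := by
    let b1 := Basis.ofSpan (K := ℝ) (V := V) (s := Ω) (by rw [hspan])
    have hsub : Set.range b1 ⊆ Ω := Basis.ofSpan_subset _
    let hfin : Fintype ((linearIndepOn_empty ℝ (id : V → V)).extend (Set.empty_subset Ω)) :=
      FiniteDimensional.fintypeBasisIndex b1
    have hcard := Module.finrank_eq_card_basis b1
    let eq := (Fintype.equivFinOfCardEq hcard.symm)
    refine ⟨b1.reindex eq, fun j => hsub ?_⟩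
    rw [Basis.reindex_apply]
    exact Set.mem_range_self _
  set S : Set ℝ := {t | ∃ w : Fin (finrank ℝ V) → V, (∀ j, w j ∈ Ω) ∧ t = |e.det w|} with hS
  have hcont : Continuous (fun w : Fin (finrank ℝ V) → V => e.det w) := by
    have h1 : (fun w : Fin (finrank ℝ V) → V => e.det w) = fun w => (e.toMatrix w).det := by
      funext w
      rw [Basis.det_apply]
    rw [h1]
    apply Continuous.matrix_det
    apply continuous_matrix
    intro i j
    have h2 : Continuous (fun v : V => e.repr v i) :=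
      (e.coord i).continuous_of_finiteDimensional
    exact h2.comp (continuous_apply j)
  have hbdd : BddAbove S := by
    have hcomp : IsCompact (Set.pi Set.univ (fun _ : Fin (finrank ℝ V) => Metric.closedBall (0:V) 1)) :=
      isCompact_univ_pi (fun _ => isCompact_closedBall 0 1)
    obtain ⟨B, hB⟩ := (hcomp.image hcont.abs).bddAbove
    refine ⟨B, ?_⟩
    rintro t ⟨w, hw, rfl⟩
    apply hB
    refine ⟨w, ?_, rfl⟩
    intro j _
    rw [mem_closedBall_zero_iff]
    exact hb _ (hw j)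
  have hpos : 0 < sSup S := by
    have h1 : |e.det b0| ∈ S := ⟨b0, hb0, rfl⟩
    have h2 : 0 < |e.det b0| := abs_pos.mpr (e.isUnit_det b0).ne_zero
    exact lt_of_lt_of_le h2 (le_csSup hbdd h1)
  obtain ⟨t, ⟨w, hw, rfl⟩, ht⟩ : ∃ t ∈ S, sSup S / 2 < t :=
    exists_lt_of_lt_csSup ⟨_, b0, hb0, rfl⟩ (by linarith)
  have hdet : e.det w ≠ 0 := by
    intro h
    rw [h, abs_zero] at ht
    linarith
  have hbasis := (e.is_basis_iff_det).mpr (isUnit_iff_ne_zero.mpr hdet)
  set b : Basis (Fin (finrank ℝ V)) ℝ V := Basis.mk hbasis.1 hbasis.2.ge with hbdef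
  have hbw : ∀ j, b j = w j := fun j => by rw [hbdef, Basis.mk_apply]
  refine ⟨b, fun j => by rw [hbw]; exact hw j, ?_⟩
  intro v hv j
  have h1 := congrArg (fun L : V →ₗ[ℝ] ℝ => L v)
    (e.det_smul_mk_coord_eq_det_update hbasis.1 hbasis.2.ge j)
  simp only [LinearMap.smul_apply, smul_eq_mul, MultilinearMap.toLinearMap_apply] at h1
  have h2 : |e.det (Function.update w j v)| ≤ sSup S := by
    apply le_csSup hbdd
    refine ⟨Function.update w j v, ?_, rfl⟩
    intro i
    rcases eq_or_ne i j with h | h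
    · subst h
      rw [Function.update_self]
      exact hv
    · rw [Function.update_of_ne h]
      exact hw i
  have h3 : |e.det w| * |b.coord j v| = |e.det (Function.update w j v)| := by
    rw [← abs_mul]
    congr 1
  have h4 : 0 < |e.det w| := abs_pos.mpr hdet
  by_contra hcon
  have hcon' : 2 < |b.coord j v| := not_le.mp hcon
  have : |e.det w| * 2 < |e.det w| * |b.coord j v| := mul_lt_mul_of_pos_left hcon' h4
  linarith

end

section
variable {E : Type*} [NormedAddCommGroup E] [NormedSpace ℝ E] [FiniteDimensional ℝ E]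

theorem exists_frame_aux (Ω : Set E) (hb : ∀ w ∈ Ω, ‖w‖ ≤ 1) :
    ∃ (m : ℕ) (w : Fin m → E) (lam : Fin m → (E →L[ℝ] ℝ)), m ≤ finrank ℝ E ∧ (∀ j, w j ∈ Ω) ∧
      (∀ x ∈ Ω, x = ∑ j, lam j x • w j) ∧ (∀ x ∈ Ω, ∀ j, |lam j x| ≤ 2) := by
  classical
  set V : Submodule ℝ E := Submodule.span ℝ Ω with hV
  set Ω' : Set V := {v | (v : E) ∈ Ω} with hΩ'
  have hspan : Submodule.span ℝ Ω' = ⊤ := by
    have : Ω' = ((↑) : V → E) ⁻¹' Ω := rfl
    rw [this]
    exact Submodule.span_span_coe_preimage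
  obtain ⟨b, hbΩ, hb2⟩ := exists_basis_in Ω' (fun w hw => hb w hw) hspan
  obtain ⟨π, hπ⟩ := LinearMap.exists_leftInverse_of_injective V.subtype (by simp)
  have hπv : ∀ v : V, π (v : E) = v := fun v => by
    have := congrArg (fun L : V →ₗ[ℝ] V => L v) hπ
    simpa using this
  refine ⟨finrank ℝ V, fun j => (b j : E), fun j => ((b.coord j) ∘ₗ π).toContinuousLinearMap,
    Submodule.finrank_le V, fun j => hbΩ j, ?_, ?_⟩
  · intro x hx
    have hxV : x ∈ V := Submodule.subset_span hx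
    have h1 : (⟨x, hxV⟩ : V) = ∑ j, b.coord j ⟨x, hxV⟩ • b j := by
      have := b.sum_repr ⟨x, hxV⟩
      exact this.symm
    have h2 := congrArg (fun v : V => (v : E)) h1
    simp only [Submodule.coe_sum, Submodule.coe_smul] at h2
    refine h2.trans ?_
    apply Finset.sum_congr rfl
    intro j _
    have h3 : π x = ⟨x, hxV⟩ := hπv ⟨x, hxV⟩
    simp [h3]
  · intro x hx j
    have hxV : x ∈ V := Submodule.subset_span hx
    have h3 : π x = ⟨x, hxV⟩ := hπv ⟨x, hxV⟩
    have := hb2 ⟨x, hxV⟩ hx j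
    simpa [h3] using this

/-- Local frames: every set `D` has at most `dim E` pairs of points whose normalised differences
reproduce all differences of points of `D`, with uniformly bounded coefficients. -/
theorem exists_frame (D : Set E) :
    ∃ (m : ℕ) (u v : Fin m → E) (lam : Fin m → (E →L[ℝ] ℝ)), m ≤ finrank ℝ E ∧
      (∀ j, u j ∈ D ∧ v j ∈ D ∧ u j ≠ v j) ∧
      (∀ x ∈ D, ∀ y ∈ D, x - y = ∑ j, lam j (x - y) • (‖u j - v j‖⁻¹ • (u j - v j))) ∧
      (∀ x ∈ D, ∀ y ∈ D, ∀ j, |lam j (x - y)| ≤ 2 * ‖x - y‖) := by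
  classical
  set Ω : Set E := {w | ∃ u ∈ D, ∃ v ∈ D, u ≠ v ∧ w = ‖u - v‖⁻¹ • (u - v)} with hΩ
  have hb : ∀ w ∈ Ω, ‖w‖ ≤ 1 := by
    rintro w ⟨u, _, v, _, huv, rfl⟩
    have h : ‖u - v‖ ≠ 0 := norm_ne_zero_iff.mpr (sub_ne_zero.mpr huv)
    rw [norm_smul, norm_inv, norm_norm, inv_mul_cancel₀ h]
  obtain ⟨m, w, lam, hm, hw, h1, h2⟩ := exists_frame_aux Ω hb
  choose u hu v hv huv hwuv using hw
  refine ⟨m, u, v, lam, hm, fun j => ⟨hu j, hv j, huv j⟩, ?_, ?_⟩
  · intro x hx y hy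
    rcases eq_or_ne x y with h | h
    · subst h
      simp
    · have hne : ‖x - y‖ ≠ 0 := norm_ne_zero_iff.mpr (sub_ne_zero.mpr h)
      have hmem : ‖x - y‖⁻¹ • (x - y) ∈ Ω := ⟨x, hx, y, hy, h, rfl⟩
      have h3 := h1 _ hmem
      have h4 : x - y = ‖x - y‖ • (‖x - y‖⁻¹ • (x - y)) := by
        rw [smul_smul, mul_inv_cancel₀ hne, one_smul]
      conv_lhs => rw [h4, h3]
      rw [Finset.smul_sum]
      apply Finset.sum_congr rfl
      intro j _
      rw [map_smul, smul_smul, smul_eq_mul, ← mul_assoc, mul_inv_cancel₀ hne, one_mul, hwuv]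
  · intro x hx y hy j
    rcases eq_or_ne x y with h | h
    · subst h
      simp
    · have hne : ‖x - y‖ ≠ 0 := norm_ne_zero_iff.mpr (sub_ne_zero.mpr h)
      have hmem : ‖x - y‖⁻¹ • (x - y) ∈ Ω := ⟨x, hx, y, hy, h, rfl⟩
      have h3 := h2 _ hmem j
      rw [map_smul, smul_eq_mul, abs_mul, abs_inv, abs_norm] at h3
      have hpos : 0 < ‖x - y‖ := lt_of_le_of_ne (norm_nonneg _) hne.symm
      rw [inv_mul_le_iff₀ hpos] at h3
      linarith

end

end Pool.Agent.H63.Free
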