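import Pool.Agent.H63.Free.Partition
import Pool.Agent.H63.Free.Frame

set_option autoImplicit false
open Filter Topology

namespace Pool.Agent.H63.Free

section
variable {d : ℕ} {K : Set (EuclideanSpace ℝ (Fin d))}

/-- Data of a local frame: pairs of points of `K` and coefficient functionals. -/
structure Frame (K : Set (EuclideanSpace ℝ (Fin d))) where
  m : ℕ
  u : Fin m → K
  v : Fin m → K
  lam : Fin m → (EuclideanSpace ℝ (Fin d) →L[ℝ] ℝ)

/-- The frame reproduces differences of points of `K` in the ball `B(p, r)`. -/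
structure Frame.Good (F : Frame K) (p : K) (r : ℝ) : Prop where
  m_le : F.m ≤ d
  hu : ∀ j, dist (F.u j) p ≤ r
  hv : ∀ j, dist (F.v j) p ≤ r
  ne : ∀ j, F.u j ≠ F.v j
  repro : ∀ x y : K, dist x p ≤ r → dist y p ≤ r → (x : EuclideanSpace ℝ (Fin d)) - y =
    ∑ j, F.lam j (x - y) • ((dist (F.u j) (F.v j))⁻¹ •
      ((F.u j : EuclideanSpace ℝ (Fin d)) - F.v j))
  bound : ∀ x y : K, dist x p ≤ r → dist y p ≤ r → ∀ j, |F.lam j (x - y)| ≤ 2 * dist x y

theorem exists_good (p : K) (r : ℝ) : ∃ F : Frame K, F.Good p r := by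
  obtain ⟨m, u, v, lam, hm, huv, h1, h2⟩ := exists_frame
    {x : EuclideanSpace ℝ (Fin d) | x ∈ K ∧ dist x p ≤ r}
  rw [finrank_euclideanSpace_fin] at hm
  refine ⟨⟨m, fun j => ⟨u j, (huv j).1.1⟩, fun j => ⟨v j, (huv j).2.1.1⟩, lam⟩, hm,
    fun j => (huv j).1.2, fun j => (huv j).2.1.2, ?_, ?_, ?_⟩
  · intro j h
    exact (huv j).2.2 (congrArg Subtype.val h)
  · intro x y hx hy
    have := h1 x ⟨x.2, hx⟩ y ⟨y.2, hy⟩
    simp only [Subtype.dist_eq, dist_eq_norm]
    exact this
  · intro x y hx hy j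
    have := h2 x ⟨x.2, hx⟩ y ⟨y.2, hy⟩ j
    rw [Subtype.dist_eq, dist_eq_norm]
    exact this

/-- The local affine reconstruction of `f`. -/
noncomputable def Frame.Q (F : Frame K) (p : K) (f : K → ℝ) (x : EuclideanSpace ℝ (Fin d)) : ℝ :=
  f p + ∑ j, F.lam j (x - p) * ((f (F.u j) - f (F.v j)) / dist (F.u j) (F.v j))

theorem Frame.Q_base (F : Frame K) (p : K) (f : K → ℝ) : F.Q p f p = f p := by
  simp [Frame.Q]

theorem Frame.Q_est {F : Frame K} {p : K} {r : ℝ} (hF : F.Good p r) (f : K → ℝ) {ε : ℝ}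
    (hε : 0 ≤ ε) (ℓ : EuclideanSpace ℝ (Fin d) →L[ℝ] ℝ)
    (hf : ∀ x y : K, dist x p ≤ r → dist y p ≤ r → |f x - f y - ℓ (x - y)| ≤ ε * dist x y)
    (x y : K) (hx : dist x p ≤ r) (hy : dist y p ≤ r) :
    |(F.Q p f x - f x) - (F.Q p f y - f y)| ≤ (1 + 2 * d) * ε * dist x y := by
  have h1 : F.Q p f x - F.Q p f y =
      ∑ j, F.lam j (x - y) * ((f (F.u j) - f (F.v j)) / dist (F.u j) (F.v j)) := by
    unfold Frame.Q
    have : ∀ j, F.lam j ((x : EuclideanSpace ℝ (Fin d)) - y) =
        F.lam j ((x : EuclideanSpace ℝ (Fin d)) - p) - F.lam j ((y : EuclideanSpace ℝ (Fin d)) - p) := by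
      intro j
      rw [← map_sub]
      congr 1
      abel
    simp only [this, sub_mul, Finset.sum_sub_distrib]
    ring
  have h2 : ℓ ((x : EuclideanSpace ℝ (Fin d)) - y) = ∑ j, F.lam j (x - y) *
      (ℓ ((F.u j : EuclideanSpace ℝ (Fin d)) - F.v j) / dist (F.u j) (F.v j)) := by
    conv_lhs => rw [hF.repro x y hx hy]
    rw [map_sum]
    apply Finset.sum_congr rfl
    intro j _
    rw [map_smul, map_smul, smul_eq_mul, smul_eq_mul, div_eq_inv_mul]
  have h3 : (F.Q p f x - f x) - (F.Q p f y - f y) =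
      (∑ j, F.lam j (x - y) * ((f (F.u j) - f (F.v j) -
        ℓ ((F.u j : EuclideanSpace ℝ (Fin d)) - F.v j)) / dist (F.u j) (F.v j))) -
      (f x - f y - ℓ ((x : EuclideanSpace ℝ (Fin d)) - y)) := by
    have : (F.Q p f x - f x) - (F.Q p f y - f y) = (F.Q p f x - F.Q p f y) - (f x - f y) := by ring
    rw [this, h1]
    have h4 : ∑ j, F.lam j (x - y) * ((f (F.u j) - f (F.v j) -
        ℓ ((F.u j : EuclideanSpace ℝ (Fin d)) - F.v j)) / dist (F.u j) (F.v j)) =
        ∑ j, F.lam j (x - y) * ((f (F.u j) - f (F.v j)) / dist (F.u j) (F.v j)) -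
        ℓ ((x : EuclideanSpace ℝ (Fin d)) - y) := by
      rw [h2, ← Finset.sum_sub_distrib]
      apply Finset.sum_congr rfl
      intro j _
      ring
    rw [h4]
    ring
  rw [h3]
  refine (abs_sub _ _).trans ?_
  have h5 : |∑ j, F.lam j (x - y) * ((f (F.u j) - f (F.v j) -
        ℓ ((F.u j : EuclideanSpace ℝ (Fin d)) - F.v j)) / dist (F.u j) (F.v j))| ≤
        2 * d * ε * dist x y := by
    refine (Finset.abs_sum_le_sum_abs _ _).trans ?_
    calc ∑ j, |F.lam j (x - y) * ((f (F.u j) - f (F.v j) -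
        ℓ ((F.u j : EuclideanSpace ℝ (Fin d)) - F.v j)) / dist (F.u j) (F.v j))|
        ≤ ∑ _j : Fin F.m, 2 * dist x y * ε := by
          apply Finset.sum_le_sum
          intro j _
          rw [abs_mul]
          apply mul_le_mul (hF.bound x y hx hy j) _ (abs_nonneg _) (by positivity)
          rw [abs_div, abs_of_nonneg dist_nonneg]
          exact div_le_of_le_mul₀ dist_nonneg hε (hf _ _ (hF.hu j) (hF.hv j))
      _ = F.m * (2 * dist x y * ε) := by simp
      _ ≤ d * (2 * dist x y * ε) := by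
          apply mul_le_mul_of_nonneg_right _ (by positivity)
          exact_mod_cast hF.m_le
      _ = 2 * d * ε * dist x y := by ring
  have h6 := hf x y hx hy
  linarith

/-- The abstract gluing estimate. -/
theorem glue_est {ι : Type} [DecidableEq ι] (J : Finset ι) (ψ : ι → EuclideanSpace ℝ (Fin d) → ℝ)
    (p : ι → K) (F : ι → Frame K) {s R L c : ℝ} (hs : 0 < s) (hR : 1 ≤ R) (hL : 0 ≤ L) (hc : 0 ≤ c)
    (hsum : ∀ x : K, ∑ l ∈ J, ψ l x = 1)
    (hψ1 : ∀ l x, |ψ l x| ≤ 1)
    (hψL : ∀ l x y, |ψ l x - ψ l y| ≤ L / s * ‖x - y‖)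
    (hcard : ∀ x : K, ((J.filter (fun l => ψ l x ≠ 0)).card : ℝ) ≤ c)
    (hnear : ∀ l ∈ J, ∀ x : K, ψ l x ≠ 0 → dist x (p l) ≤ (R - 1) * s)
    (hF : ∀ l ∈ J, (F l).Good (p l) (R * s))
    (f : K → ℝ) {ε : ℝ} (hε : 0 ≤ ε)
    (hf : ∀ l ∈ J, ∃ ℓ : EuclideanSpace ℝ (Fin d) →L[ℝ] ℝ, ∀ x y : K, dist x (p l) ≤ R * s →
      dist y (p l) ≤ R * s → |f x - f y - ℓ (x - y)| ≤ ε * dist x y) :
    (∀ x : K, |∑ l ∈ J, ψ l x * (F l).Q (p l) f x - f x| ≤ c * (1 + 2 * d) * R * ε * s) ∧
    (∀ x y : K, |(∑ l ∈ J, ψ l x * (F l).Q (p l) f x - f x) -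
      (∑ l ∈ J, ψ l y * (F l).Q (p l) f y - f y)| ≤
        2 * c * (1 + 2 * d) * (1 + L) * R * ε * dist x y) := by
  classical
  set h : ι → K → ℝ := fun l x => (F l).Q (p l) f x - f x with hh
  have hexp : ∀ x : K, ∑ l ∈ J, ψ l x * (F l).Q (p l) f x - f x = ∑ l ∈ J, ψ l x * h l x := by
    intro x
    have : ∑ l ∈ J, ψ l x * h l x =
        ∑ l ∈ J, ψ l x * (F l).Q (p l) f x - (∑ l ∈ J, ψ l x) * f x := by
      rw [Finset.sum_mul, ← Finset.sum_sub_distrib]
      exact Finset.sum_congr rfl (fun l _ => by simp only [hh]; ring)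
    rw [this, hsum x, one_mul]
  have hdiff : ∀ l ∈ J, ∀ x y : K, dist x (p l) ≤ R * s → dist y (p l) ≤ R * s →
      |h l x - h l y| ≤ (1 + 2 * d) * ε * dist x y := by
    intro l hl x y hx hy
    obtain ⟨ℓ, hℓ⟩ := hf l hl
    exact Frame.Q_est (hF l hl) f hε ℓ hℓ x y hx hy
  have hRs : 0 ≤ R * s := by positivity
  have hval : ∀ l ∈ J, ∀ x : K, dist x (p l) ≤ R * s → |h l x| ≤ (1 + 2 * d) * ε * (R * s) := by
    intro l hl x hx
    have h1 := hdiff l hl x (p l) hx (by rw [dist_self]; exact hRs)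
    have h2 : h l (p l) = 0 := by
      simp only [hh]
      rw [Frame.Q_base, sub_self]
    rw [h2, sub_zero] at h1
    refine h1.trans ?_
    exact mul_le_mul_of_nonneg_left hx (by positivity)
  have hnear' : ∀ l ∈ J, ∀ x : K, ψ l x ≠ 0 → dist x (p l) ≤ R * s := by
    intro l hl x hx
    refine (hnear l hl x hx).trans ?_
    nlinarith
  have hpt : ∀ x : K, |∑ l ∈ J, ψ l x * h l x| ≤ c * (1 + 2 * d) * R * ε * s := by
    intro x
    have h1 : ∑ l ∈ J, ψ l x * h l x = ∑ l ∈ J.filter (fun l => ψ l x ≠ 0), ψ l x * h l x := by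
      rw [Finset.sum_filter_of_ne]
      intro l _ hne hz
      exact hne (by rw [hz, zero_mul])
    rw [h1]
    refine (Finset.abs_sum_le_sum_abs _ _).trans ?_
    calc ∑ l ∈ J.filter (fun l => ψ l x ≠ 0), |ψ l x * h l x|
        ≤ ∑ _l ∈ J.filter (fun l => ψ l x ≠ 0), (1 + 2 * d) * ε * (R * s) := by
          apply Finset.sum_le_sum
          intro l hl
          obtain ⟨hlJ, hlx⟩ := Finset.mem_filter.mp hl
          rw [abs_mul]
          calc |ψ l x| * |h l x| ≤ 1 * ((1 + 2 * d) * ε * (R * s)) :=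
                mul_le_mul (hψ1 l x) (hval l hlJ x (hnear' l hlJ x hlx)) (abs_nonneg _) zero_le_one
            _ = (1 + 2 * d) * ε * (R * s) := one_mul _
      _ = ((J.filter (fun l => ψ l x ≠ 0)).card : ℝ) * ((1 + 2 * d) * ε * (R * s)) := by
          rw [Finset.sum_const, nsmul_eq_mul]
      _ ≤ c * ((1 + 2 * d) * ε * (R * s)) :=
          mul_le_mul_of_nonneg_right (hcard x) (by positivity)
      _ = c * (1 + 2 * d) * R * ε * s := by ring
  refine ⟨fun x => by rw [hexp]; exact hpt x, ?_⟩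
  intro x y
  rw [hexp, hexp]
  rcases le_or_gt (dist x y) s with hxy | hxy
  · -- nearby points
    set I := J.filter (fun l => ψ l x ≠ 0) ∪ J.filter (fun l => ψ l y ≠ 0) with hI
    have hIJ : I ⊆ J := Finset.union_subset (Finset.filter_subset _ _) (Finset.filter_subset _ _)
    have hx1 : ∑ l ∈ J, ψ l x * h l x = ∑ l ∈ I, ψ l x * h l x := by
      symm
      apply Finset.sum_subset hIJ
      intro l hl hlI
      have : ψ l x = 0 := by
        by_contra hne
        exact hlI (Finset.mem_union_left _ (Finset.mem_filter.mpr ⟨hl, hne⟩))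
      rw [this, zero_mul]
    have hy1 : ∑ l ∈ J, ψ l y * h l y = ∑ l ∈ I, ψ l y * h l y := by
      symm
      apply Finset.sum_subset hIJ
      intro l hl hlI
      have : ψ l y = 0 := by
        by_contra hne
        exact hlI (Finset.mem_union_right _ (Finset.mem_filter.mpr ⟨hl, hne⟩))
      rw [this, zero_mul]
    rw [hx1, hy1, ← Finset.sum_sub_distrib]
    have hIboth : ∀ l ∈ I, dist x (p l) ≤ R * s ∧ dist y (p l) ≤ R * s := by
      intro l hl
      rcases Finset.mem_union.mp hl with h1 | h1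
      · obtain ⟨hlJ, hlx⟩ := Finset.mem_filter.mp h1
        refine ⟨hnear' l hlJ x hlx, ?_⟩
        have h2 := hnear l hlJ x hlx
        have h3 : dist y (p l) ≤ dist x y + dist x (p l) := by
          rw [dist_comm x y]; exact dist_triangle _ _ _
        nlinarith
      · obtain ⟨hlJ, hly⟩ := Finset.mem_filter.mp h1
        refine ⟨?_, hnear' l hlJ y hly⟩
        have h2 := hnear l hlJ y hly
        have h3 : dist x (p l) ≤ dist x y + dist y (p l) := dist_triangle _ _ _
        nlinarith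
    have hIcard : (I.card : ℝ) ≤ 2 * c := by
      have h1 : I.card ≤ (J.filter (fun l => ψ l x ≠ 0)).card + (J.filter (fun l => ψ l y ≠ 0)).card :=
        Finset.card_union_le _ _
      have h2 : (I.card : ℝ) ≤ ((J.filter (fun l => ψ l x ≠ 0)).card : ℝ) +
        ((J.filter (fun l => ψ l y ≠ 0)).card : ℝ) := by exact_mod_cast h1
      linarith [hcard x, hcard y]
    refine (Finset.abs_sum_le_sum_abs _ _).trans ?_
    calc ∑ l ∈ I, |ψ l x * h l x - ψ l y * h l y|
        ≤ ∑ _l ∈ I, (1 + 2 * d) * (1 + L) * R * ε * dist x y := by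
          apply Finset.sum_le_sum
          intro l hl
          have hlJ := hIJ hl
          obtain ⟨b1, b2⟩ := hIboth l hl
          have e1 : ψ l x * h l x - ψ l y * h l y =
              ψ l x * (h l x - h l y) + (ψ l x - ψ l y) * h l y := by ring
          rw [e1]
          refine (abs_add_le _ _).trans ?_
          rw [abs_mul, abs_mul]
          have e2 : |ψ l x| * |h l x - h l y| ≤ 1 * ((1 + 2 * d) * ε * dist x y) :=
            mul_le_mul (hψ1 l x) (hdiff l hlJ x y b1 b2) (abs_nonneg _) zero_le_one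
          have e3 : |ψ l x - ψ l y| * |h l y| ≤ (L / s * dist x y) * ((1 + 2 * d) * ε * (R * s)) := by
            apply mul_le_mul _ (hval l hlJ y b2) (abs_nonneg _) (by positivity)
            rw [Subtype.dist_eq, dist_eq_norm]
            exact hψL l x y
          have e4 : (L / s * dist x y) * ((1 + 2 * d) * ε * (R * s)) =
              L * R * ((1 + 2 * d) * ε * dist x y) := by
            field_simp
          have e5 : (0:ℝ) ≤ (1 + 2 * d) * ε * dist x y := by positivity
          calc |ψ l x| * |h l x - h l y| + |ψ l x - ψ l y| * |h l y|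
              ≤ 1 * ((1 + 2 * d) * ε * dist x y) + L * R * ((1 + 2 * d) * ε * dist x y) := by
                rw [← e4]; exact add_le_add e2 e3
            _ ≤ R * ((1 + 2 * d) * ε * dist x y) + L * R * ((1 + 2 * d) * ε * dist x y) :=
                add_le_add (mul_le_mul_of_nonneg_right hR e5) le_rfl
            _ = (1 + 2 * d) * (1 + L) * R * ε * dist x y := by ring
      _ = (I.card : ℝ) * ((1 + 2 * d) * (1 + L) * R * ε * dist x y) := by
          rw [Finset.sum_const, nsmul_eq_mul]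
      _ ≤ (2 * c) * ((1 + 2 * d) * (1 + L) * R * ε * dist x y) :=
          mul_le_mul_of_nonneg_right hIcard (by positivity)
      _ = 2 * c * (1 + 2 * d) * (1 + L) * R * ε * dist x y := by ring
  · refine (abs_sub _ _).trans ?_
    have h1 := hpt x
    have h2 := hpt y
    have h3 : c * (1 + 2 * d) * R * ε * s ≤ c * (1 + 2 * d) * R * ε * dist x y :=
      mul_le_mul_of_nonneg_left hxy.le (by positivity)
    have h4 : (0:ℝ) ≤ c * (1 + 2 * d) * R * ε * dist x y * L := by positivity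
    nlinarith

end

end Pool.Agent.H63.Free
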