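import Mathlib

set_option autoImplicit false
open Filter Topology

namespace Pool.Agent.H63.Free

section LipZero

variable (M : Type) [MetricSpace M] (o : M)

/-- The vector space of real Lipschitz functions on `M` that vanish at the base point `o`. -/
def lipSubmodule : Submodule ℝ (M → ℝ) where
  carrier := {f | f o = 0 ∧ ∃ C : ℝ, ∀ x y, |f x - f y| ≤ C * dist x y}
  zero_mem' := ⟨rfl, 0, fun x y => by simp⟩
  add_mem' := by
    rintro f g ⟨hf, C, hC⟩ ⟨hg, D, hD⟩
    refine ⟨by simp [hf, hg], C + D, fun x y => ?_⟩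
    have h : (f + g) x - (f + g) y = (f x - f y) + (g x - g y) := by
      simp only [Pi.add_apply]; ring
    rw [h]
    calc |(f x - f y) + (g x - g y)| ≤ |f x - f y| + |g x - g y| := abs_add_le _ _
      _ ≤ C * dist x y + D * dist x y := add_le_add (hC x y) (hD x y)
      _ = (C + D) * dist x y := by ring
  smul_mem' := by
    rintro c f ⟨hf, C, hC⟩
    refine ⟨by simp [hf], |c| * C, fun x y => ?_⟩
    have h : (c • f) x - (c • f) y = c * (f x - f y) := by
      simp only [Pi.smul_apply, smul_eq_mul]; ring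
    rw [h, abs_mul, mul_assoc]
    exact mul_le_mul_of_nonneg_left (hC x y) (abs_nonneg c)

/-- The space `Lip₀(M)`. -/
def Lip0 : Type := ↥(lipSubmodule M o)

noncomputable instance : AddCommGroup (Lip0 M o) :=
  Submodule.addCommGroup (lipSubmodule M o)

noncomputable instance : Module ℝ (Lip0 M o) :=
  Submodule.module (lipSubmodule M o)

variable {M o}

/-- The norm of `Lip₀(M)` is the best Lipschitz constant. -/
noncomputable instance : Norm (Lip0 M o) :=
  ⟨fun f => sInf {C : ℝ | 0 ≤ C ∧ ∀ x y, |f.1 x - f.1 y| ≤ C * dist x y}⟩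

theorem Lip0.bddBelow (f : Lip0 M o) :
    BddBelow {C : ℝ | 0 ≤ C ∧ ∀ x y, |f.1 x - f.1 y| ≤ C * dist x y} :=
  ⟨0, fun _ hC => hC.1⟩

theorem Lip0.nonempty (f : Lip0 M o) :
    {C : ℝ | 0 ≤ C ∧ ∀ x y, |f.1 x - f.1 y| ≤ C * dist x y}.Nonempty := by
  obtain ⟨C, hC⟩ := f.2.2
  refine ⟨|C|, abs_nonneg C, fun x y => (hC x y).trans ?_⟩
  exact mul_le_mul_of_nonneg_right (le_abs_self C) dist_nonneg

theorem Lip0.norm_nonneg' (f : Lip0 M o) : 0 ≤ ‖f‖ :=
  le_csInf f.nonempty (fun _ hC => hC.1)

/-- The norm is a Lipschitz constant. -/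
theorem Lip0.abs_sub_le (f : Lip0 M o) (x y : M) : |f.1 x - f.1 y| ≤ ‖f‖ * dist x y := by
  rcases eq_or_lt_of_le (dist_nonneg (x := x) (y := y)) with h | h
  · have hxy : x = y := dist_eq_zero.mp h.symm
    subst hxy
    simp
  · rw [← div_le_iff₀ h]
    refine le_csInf f.nonempty ?_
    intro C hC
    rw [div_le_iff₀ h]
    exact hC.2 x y

theorem Lip0.norm_le_of {f : Lip0 M o} {C : ℝ} (hC : 0 ≤ C)
    (h : ∀ x y, |f.1 x - f.1 y| ≤ C * dist x y) : ‖f‖ ≤ C :=
  csInf_le f.bddBelow ⟨hC, h⟩

theorem Lip0.add_val (f g : Lip0 M o) (x : M) : (f + g).1 x = f.1 x + g.1 x := rfl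
theorem Lip0.sub_val (f g : Lip0 M o) (x : M) : (f - g).1 x = f.1 x - g.1 x := rfl
theorem Lip0.smul_val (c : ℝ) (f : Lip0 M o) (x : M) : (c • f).1 x = c * f.1 x := rfl
theorem Lip0.zero_val (x : M) : (0 : Lip0 M o).1 x = 0 := rfl
theorem Lip0.base (f : Lip0 M o) : f.1 o = 0 := f.2.1

theorem lip0Core : NormedSpace.Core ℝ (Lip0 M o) where
  norm_nonneg f := f.norm_nonneg'
  norm_smul c f := by
    have key : ∀ (c : ℝ) (f : Lip0 M o), ‖c • f‖ ≤ |c| * ‖f‖ := by
      intro c f
      refine Lip0.norm_le_of (mul_nonneg (abs_nonneg c) f.norm_nonneg') (fun x y => ?_)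
      rw [Lip0.smul_val, Lip0.smul_val, ← mul_sub, abs_mul, mul_assoc]
      exact mul_le_mul_of_nonneg_left (f.abs_sub_le x y) (abs_nonneg c)
    rw [Real.norm_eq_abs]
    apply le_antisymm (key c f)
    rcases eq_or_ne c 0 with h | h
    · subst h
      rw [abs_zero, zero_mul]
      exact Lip0.norm_nonneg' _
    · have h2 := key c⁻¹ (c • f)
      rw [smul_smul, inv_mul_cancel₀ h, one_smul, abs_inv] at h2
      have hc : 0 < |c| := abs_pos.mpr h
      calc |c| * ‖f‖ ≤ |c| * (|c|⁻¹ * ‖c • f‖) := mul_le_mul_of_nonneg_left h2 hc.le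
        _ = ‖c • f‖ := by field_simp
  norm_triangle f g := by
    refine Lip0.norm_le_of (add_nonneg f.norm_nonneg' g.norm_nonneg') (fun x y => ?_)
    have h : (f + g).1 x - (f + g).1 y = (f.1 x - f.1 y) + (g.1 x - g.1 y) := by
      rw [Lip0.add_val, Lip0.add_val]; ring
    rw [h, add_mul]
    exact (abs_add_le _ _).trans (add_le_add (f.abs_sub_le x y) (g.abs_sub_le x y))
  norm_eq_zero_iff f := by
    constructor
    · intro h
      apply Subtype.ext
      funext x
      have h1 := f.abs_sub_le x o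
      rw [h, zero_mul, f.base, sub_zero] at h1
      have := abs_nonpos_iff.mp h1
      exact this
    · intro h
      subst h
      apply le_antisymm _ (Lip0.norm_nonneg' _)
      exact Lip0.norm_le_of le_rfl (fun x y => by simp [Lip0.zero_val])

noncomputable instance : NormedAddCommGroup (Lip0 M o) := NormedAddCommGroup.ofCore lip0Core

noncomputable instance : NormedSpace ℝ (Lip0 M o) := NormedSpace.ofCore lip0Core

variable (M o)

/-- The evaluation functional `δ(x) : f ↦ f(x)` on `Lip₀(M)`. -/
noncomputable def delta (x : M) : StrongDual ℝ (Lip0 M o) :=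
  LinearMap.mkContinuous
    { toFun := fun f => f.1 x
      map_add' := fun _ _ => rfl
      map_smul' := fun _ _ => rfl } (dist x o) (fun f => by
        have h := f.abs_sub_le x o
        rw [f.base, sub_zero] at h
        rw [mul_comm]
        exact h)

/-- The closed linear span of the evaluations in the dual of `Lip₀(M)`. -/
noncomputable def freeSubmodule : Submodule ℝ (StrongDual ℝ (Lip0 M o)) :=
  (Submodule.span ℝ (Set.range (delta M o))).topologicalClosure

/-- The Lipschitz-free space `F(M)`: the closed linear span of the evaluations `δ(x)` in the dual of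
`Lip₀(M)`, with the norm of that dual. -/
def LipFree : Type := ↥(freeSubmodule M o)

noncomputable instance : NormedAddCommGroup (LipFree M o) :=
  Submodule.normedAddCommGroup (freeSubmodule M o)

noncomputable instance : NormedSpace ℝ (LipFree M o) :=
  Submodule.normedSpace (freeSubmodule M o)

end LipZero

/-- The commuting bounded approximation property: there is a bounded sequence of commuting
finite-rank operators that converges strongly to the identity. -/
def HasCommutingBAP (X : Type) [NormedAddCommGroup X] [NormedSpace ℝ X] : Prop :=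
  ∃ T : ℕ → X →L[ℝ] X,
    (∀ n, FiniteDimensional ℝ (LinearMap.range (T n).toLinearMap)) ∧
    (∃ C : ℝ, ∀ n, ‖T n‖ ≤ C) ∧
    (∀ x : X, Tendsto (fun n => T n x) atTop (𝓝 x)) ∧
    (∀ n m, (T n).comp (T m) = (T m).comp (T n))

end Pool.Agent.H63.Free
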