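import Pool.Agent.H63.Free.Core
import Pool.Agent.H63.Free.Abstract

set_option autoImplicit false
open Filter Topology

namespace Pool.Agent.H63.Free

section General
variable {M : Type} [MetricSpace M] {o : M}

theorem delta_apply (x : M) (f : Lip0 M o) : delta M o x f = f.1 x := rfl

/-- Evaluations as elements of the free space. -/
noncomputable def dl (x : M) : LipFree M o :=
  ⟨delta M o x, Submodule.le_topologicalClosure _ (Submodule.subset_span ⟨x, rfl⟩)⟩

/-- Elements of the free space from members of the closed span. -/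
noncomputable def mkF (ν : StrongDual ℝ (Lip0 M o)) (hν : ν ∈ freeSubmodule M o) : LipFree M o :=
  ⟨ν, hν⟩

theorem mkF_add {a b : StrongDual ℝ (Lip0 M o)} (ha : a ∈ freeSubmodule M o)
    (hb : b ∈ freeSubmodule M o) (hab : a + b ∈ freeSubmodule M o) :
    mkF a ha + mkF b hb = mkF (a + b) hab := rfl

theorem mkF_smul {a : StrongDual ℝ (Lip0 M o)} (c : ℝ) (ha : a ∈ freeSubmodule M o)
    (hca : c • a ∈ freeSubmodule M o) : c • mkF a ha = mkF (c • a) hca := rfl

theorem mkF_zero (h : (0 : StrongDual ℝ (Lip0 M o)) ∈ freeSubmodule M o) :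
    mkF 0 h = (0 : LipFree M o) := rfl

/-- The inclusion of the free space in the dual of `Lip₀`. -/
noncomputable def incl : LipFree M o →L[ℝ] StrongDual ℝ (Lip0 M o) :=
  (freeSubmodule M o).subtypeL

/-- Lipschitz functions as functionals on the free space. -/
noncomputable def ev (f : Lip0 M o) : StrongDual ℝ (LipFree M o) :=
  (ContinuousLinearMap.apply ℝ ℝ f).comp incl

theorem ev_apply (f : Lip0 M o) (μ : LipFree M o) : ev f μ = μ.1 f := rfl

theorem ev_add (f g : Lip0 M o) : ev (f + g) = ev f + ev g := by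
  ext μ
  simp only [ev_apply, add_apply, map_add]

theorem ev_smul (c : ℝ) (f : Lip0 M o) : ev (c • f) = c • ev f := by
  ext μ
  simp only [ev_apply, map_smul, smul_apply]

theorem ev_zero : ev (0 : Lip0 M o) = 0 := by
  ext μ
  simp [ev_apply]

theorem norm_ev_le (f : Lip0 M o) : ‖ev f‖ ≤ ‖f‖ := by
  refine ContinuousLinearMap.opNorm_le_bound _ (norm_nonneg _) (fun μ => ?_)
  rw [ev_apply, mul_comm]
  exact μ.1.le_opNorm f

end General

section
variable {d : ℕ} {K : Set (EuclideanSpace ℝ (Fin d))}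

theorem lip_of_C1 (hK : IsCompact K) {F : EuclideanSpace ℝ (Fin d) → ℝ} (hF : ContDiff ℝ 1 F) :
    ∃ C : ℝ, ∀ x y : K, |F x - F y| ≤ C * dist x y := by
  obtain ⟨r, hr⟩ := hK.isBounded.subset_closedBall (0 : EuclideanSpace ℝ (Fin d))
  obtain ⟨C, hC⟩ := hF.contDiffOn (s := Metric.closedBall (0 : EuclideanSpace ℝ (Fin d)) r)
    |>.exists_lipschitzOnWith one_ne_zero (convex_closedBall _ _) (isCompact_closedBall _ _)
  refine ⟨C, fun x y => ?_⟩
  have := hC.dist_le_mul x (hr x.2) y (hr y.2)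
  rwa [Real.dist_eq] at this

theorem uniform_C1 (hK : IsCompact K) {F : EuclideanSpace ℝ (Fin d) → ℝ} (hF : ContDiff ℝ 1 F)
    {ε : ℝ} (hε : 0 < ε) : ∃ ρ > 0, ∀ p : K, ∃ ℓ : EuclideanSpace ℝ (Fin d) →L[ℝ] ℝ,
      ∀ x y : K, dist x p < ρ → dist y p < ρ → |F x - F y - ℓ (x - y)| ≤ ε * dist x y := by
  have hc : Continuous (fderiv ℝ F) := hF.continuous_fderiv one_ne_zero
  have hu := hK.uniformContinuousAt_of_continuousAt (fderiv ℝ F) (fun a _ => hc.continuousAt)
    (Metric.dist_mem_uniformity hε)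
  obtain ⟨ρ, hρ, hρu⟩ := Metric.mem_uniformity_dist.mp hu
  refine ⟨ρ, hρ, fun p => ⟨fderiv ℝ F p, fun x y hx hy => ?_⟩⟩
  have hb : ∀ z ∈ Metric.ball (p : EuclideanSpace ℝ (Fin d)) ρ, ‖fderiv ℝ F z - fderiv ℝ F p‖ ≤ ε := by
    intro z hz
    have h1 : dist (p : EuclideanSpace ℝ (Fin d)) z < ρ := by
      rw [dist_comm]; exact Metric.mem_ball.mp hz
    have h2 := hρu h1 p.2
    rw [← dist_eq_norm, dist_comm]
    exact h2.le
  have h3 := Convex.norm_image_sub_le_of_norm_fderiv_le' (𝕜 := ℝ) (f := F)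
    (s := Metric.ball (p : EuclideanSpace ℝ (Fin d)) ρ) (φ := fderiv ℝ F p) (C := ε)
    (fun z _ => (hF.differentiable one_ne_zero) z) hb (convex_ball _ _)
    (x := y) (y := x) (Metric.mem_ball.mpr hy) (Metric.mem_ball.mpr hx)
  rw [Real.norm_eq_abs] at h3
  rw [Subtype.dist_eq, dist_eq_norm]
  exact h3

variable (o : K)

/-- The restriction to `K` of a `C¹` function, normalised at the base point. -/
noncomputable def ofC1 (hK : IsCompact K) (F : EuclideanSpace ℝ (Fin d) → ℝ) (hF : ContDiff ℝ 1 F) :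
    Lip0 K o :=
  ⟨fun x => F x - F o, by simp, by
    obtain ⟨C, hC⟩ := lip_of_C1 hK hF
    exact ⟨C, fun x y => by simpa using hC x y⟩⟩

theorem ofC1_val (hK : IsCompact K) (F : EuclideanSpace ℝ (Fin d) → ℝ) (hF : ContDiff ℝ 1 F)
    (x : K) : (ofC1 o hK F hF).1 x = F x - F o := rfl

/-- The functionals given by restrictions of `C¹` functions. -/
noncomputable def ZZ (o : K) : Submodule ℝ (StrongDual ℝ (LipFree K o)) where
  carrier := {z | ∃ (F : EuclideanSpace ℝ (Fin d) → ℝ) (f : Lip0 K o), ContDiff ℝ 1 F ∧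
    (∀ x : K, f.1 x = F x - F o) ∧ z = ev f}
  zero_mem' := ⟨fun _ => 0, 0, contDiff_const, fun x => by simp [Lip0.zero_val], ev_zero.symm⟩
  add_mem' := by
    rintro _ _ ⟨F, f, hF, hf, rfl⟩ ⟨G, g, hG, hg, rfl⟩
    refine ⟨fun x => F x + G x, f + g, hF.add hG, fun x => ?_, (ev_add f g).symm⟩
    rw [Lip0.add_val, hf, hg]
    ring
  smul_mem' := by
    rintro c _ ⟨F, f, hF, hf, rfl⟩
    refine ⟨fun x => c * F x, c • f, contDiff_const.mul hF, fun x => ?_, (ev_smul c f).symm⟩
    rw [Lip0.smul_val, hf]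
    ring

/-- The local operators at scale `s`. -/
theorem exists_operator (hK : IsCompact K) : ∃ C R : ℝ, 0 ≤ C ∧ 1 ≤ R ∧ ∀ s > 0,
    ∃ (T : LipFree K o →L[ℝ] LipFree K o) (S : Lip0 K o → Lip0 K o), T ∈ FZ (ZZ o) ∧
      (∀ (μ : LipFree K o) (f : Lip0 K o), (T μ).1 f = μ.1 (S f)) ∧
      (∀ (f : Lip0 K o) (x : K), |(S f).1 x - f.1 x| ≤ C * ‖f‖ * s) ∧
      (∀ (f : Lip0 K o) (ε : ℝ), 0 ≤ ε → (∀ p : K, ∃ ℓ : EuclideanSpace ℝ (Fin d) →L[ℝ] ℝ,
        ∀ x y : K, dist x p ≤ R * s → dist y p ≤ R * s →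
          |f.1 x - f.1 y - ℓ (x - y)| ≤ ε * dist x y) → ‖S f - f‖ ≤ C * ε) := by
  classical
  obtain ⟨L, hL0, hL⟩ := lipschitz_Phi (d := d)
  set R : ℝ := 1 + Real.sqrt d * 2 with hR
  have hR1 : 1 ≤ R := by
    have : 0 ≤ Real.sqrt d * 2 := by positivity
    linarith
  set c : ℝ := 2 ^ d with hc
  have hc0 : 0 ≤ c := by positivity
  refine ⟨2 * c * (1 + 2 * d) * (1 + L) * R, R, by positivity, hR1, ?_⟩
  intro s hs
  -- size of the grid
  obtain ⟨B, hB⟩ := hK.isBounded.exists_norm_le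
  obtain ⟨N, hN⟩ := exists_nat_gt (B / s)
  have hN' : ∀ x ∈ K, ‖x‖ ≤ N * s := by
    intro x hx
    have := hB x hx
    rw [div_lt_iff₀ hs] at hN
    linarith
  set J0 : Finset (Fin d → ℕ) := Fintype.piFinset (fun _ : Fin d => Finset.range (2 * N + 1))
    with hJ0
  set J : Finset (Fin d → ℕ) := J0.filter (fun l => ∃ x : K, psi N s l x ≠ 0) with hJ
  have hsum : ∀ x : K, ∑ l ∈ J, psi N s l x = 1 := by
    intro x
    rw [← sum_psi N hs (hN' x x.2), hJ]
    apply Finset.sum_filter_of_ne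
    intro l _ hne
    exact ⟨x, hne⟩
  let p : (Fin d → ℕ) → K := fun l => if h : ∃ x : K, psi N s l x ≠ 0 then h.choose else o
  have hp : ∀ l ∈ J, psi N s l (p l) ≠ 0 := by
    intro l hl
    have h := (Finset.mem_filter.mp hl).2
    simp only [p, dif_pos h]
    exact h.choose_spec
  choose F hF using fun l : Fin d → ℕ => exists_good (K := K) (p l) (R * s)
  have hnear : ∀ l ∈ J, ∀ x : K, psi N s l x ≠ 0 → dist x (p l) ≤ (R - 1) * s := by
    intro l hl x hx
    rw [Subtype.dist_eq, dist_eq_norm]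
    refine (psi_near hs hx (hp l hl)).trans ?_
    rw [hR]
    apply le_of_eq
    ring
  have hcard : ∀ x : K, ((J.filter (fun l => psi N s l x ≠ 0)).card : ℝ) ≤ c := by
    intro x
    have := card_psi N s J (x : EuclideanSpace ℝ (Fin d))
    rw [hc]
    exact_mod_cast this
  have hglue := fun (f : K → ℝ) (ε : ℝ) (hε : 0 ≤ ε) => glue_est J (fun l => psi N s l) p F hs hR1 hL0
    hc0 hsum (fun l x => abs_psi_le N s l x) (fun l x y => psi_lip hL N hs l x y) hcard hnear
    (fun l _ => hF l) f hε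
  -- the smooth functions
  let g : (Fin d → ℕ) → Lip0 K o := fun l => ofC1 o hK (psi N s l) (contDiff_psi N s l)
  have hg'c : ∀ (l : Fin d → ℕ) (j : Fin (F l).m),
      ContDiff ℝ 1 (fun x => psi N s l x * (F l).lam j (x - p l)) := by
    intro l j
    exact (contDiff_psi N s l).mul (((F l).lam j).contDiff.comp (contDiff_id.sub contDiff_const))
  let g' : (l : Fin d → ℕ) → Fin (F l).m → Lip0 K o := fun l j =>
    ofC1 o hK (fun x => psi N s l x * (F l).lam j (x - p l)) (hg'c l j)
  let T : LipFree K o →L[ℝ] LipFree K o := ∑ l ∈ J, (rk1 (ev (g l)) (dl (p l)) +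
    ∑ j, rk1 (ev (g' l j)) ((dist ((F l).u j) ((F l).v j))⁻¹ • (dl ((F l).u j) - dl ((F l).v j))))
  let S : Lip0 K o → Lip0 K o := fun f => ∑ l ∈ J, (f.1 (p l) • g l +
    ∑ j, ((f.1 ((F l).u j) - f.1 ((F l).v j)) / dist ((F l).u j) ((F l).v j)) • g' l j)
  have hSval : ∀ (f : Lip0 K o) (x : K), (S f).1 x =
      ∑ l ∈ J, psi N s l x * (F l).Q (p l) f.1 x - ∑ l ∈ J, psi N s l o * (F l).Q (p l) f.1 o := by
    intro f x
    rw [← delta_apply]
    simp only [S, map_sum, map_add, map_smul, smul_eq_mul]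
    rw [← Finset.sum_sub_distrib]
    apply Finset.sum_congr rfl
    intro l _
    have e1 : delta K o x (g l) = psi N s l x - psi N s l o := rfl
    have e2 : ∀ j, delta K o x (g' l j) = psi N s l x * (F l).lam j (x - p l) -
      psi N s l o * (F l).lam j (o - p l) := fun j => rfl
    rw [e1]
    simp only [e2]
    unfold Frame.Q
    rw [mul_add, mul_add, Finset.mul_sum, Finset.mul_sum]
    have e3 : ∑ j, (f.1 ((F l).u j) - f.1 ((F l).v j)) / dist ((F l).u j) ((F l).v j) *
        (psi N s l x * (F l).lam j (x - p l) - psi N s l o * (F l).lam j (o - p l)) =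
        ∑ j, psi N s l x * ((F l).lam j (x - p l) *
          ((f.1 ((F l).u j) - f.1 ((F l).v j)) / dist ((F l).u j) ((F l).v j))) -
        ∑ j, psi N s l o * ((F l).lam j (o - p l) *
          ((f.1 ((F l).u j) - f.1 ((F l).v j)) / dist ((F l).u j) ((F l).v j))) := by
      rw [← Finset.sum_sub_distrib]
      apply Finset.sum_congr rfl
      intro j _
      ring
    rw [e3]
    ring
  refine ⟨T, S, ?_, ?_, ?_, ?_⟩
  · apply Submodule.sum_mem
    intro l _
    apply Submodule.add_mem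
    · have h : ev (g l) ∈ ZZ o := ⟨psi N s l, g l, contDiff_psi N s l, fun x => rfl, rfl⟩
      exact rk1_mem h _
    · apply Submodule.sum_mem
      intro j _
      have h : ev (g' l j) ∈ ZZ o := ⟨_, g' l j, hg'c l j, fun x => rfl, rfl⟩
      exact rk1_mem h _
  · intro μ f
    rw [← ev_apply f (T μ)]
    simp only [T, S, sum_apply, add_apply, map_sum, map_add, ContinuousLinearMap.smulRight_apply,
      map_smul, smul_eq_mul]
    apply Finset.sum_congr rfl
    intro l _
    have e1 : ev f (dl (p l)) = f.1 (p l) := rfl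
    have e2 : ∀ j, ev f (dl ((F l).u j) - dl ((F l).v j)) = f.1 ((F l).u j) - f.1 ((F l).v j) :=
      fun j => rfl
    simp only [e1, e2, ev_apply]
    congr 1
    · ring
    · apply Finset.sum_congr rfl
      intro j _
      rw [div_eq_inv_mul]
      ring
  · intro f x
    have h0 := (hglue f.1 ‖f‖ (norm_nonneg f) (fun l _ => ⟨0, fun x y _ _ => by
      simpa using f.abs_sub_le x y⟩)).1
    have h1 : (S f).1 x - f.1 x = (∑ l ∈ J, psi N s l x * (F l).Q (p l) f.1 x - f.1 x) -
        (∑ l ∈ J, psi N s l o * (F l).Q (p l) f.1 o - f.1 o) := by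
      rw [hSval, f.base]; ring
    rw [h1]
    refine (abs_sub _ _).trans ?_
    have h2 := h0 x
    have h3 := h0 o
    have h4 : (0:ℝ) ≤ c * (1 + 2 * d) * R * ‖f‖ * s * L := by positivity
    nlinarith
  · intro f ε hε hf
    refine Lip0.norm_le_of (by positivity) (fun x y => ?_)
    have h0 := (hglue f.1 ε hε (fun l _ => hf (p l))).2 x y
    have h1 : (S f - f).1 x - (S f - f).1 y =
        (∑ l ∈ J, psi N s l x * (F l).Q (p l) f.1 x - f.1 x) -
        (∑ l ∈ J, psi N s l y * (F l).Q (p l) f.1 y - f.1 y) := by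
      rw [Lip0.sub_val, Lip0.sub_val, hSval, hSval]; ring
    rw [h1]
    exact h0

theorem hasCommutingBAP_lipFree (hK : IsCompact K) : HasCommutingBAP (LipFree K o) := by
  obtain ⟨C, R, hC, hR, hop⟩ := exists_operator o hK
  choose T S hTZ hTS hSpt hSn using fun n : ℕ => hop (1 / ((n : ℝ) + 1)) (by positivity)
  have hRpos : 0 < R := by linarith
  -- bound for S
  have hSb : ∀ n f, ‖S n f‖ ≤ (C + 1) * ‖f‖ := by
    intro n f
    have h1 := hSn n f ‖f‖ (norm_nonneg f) (fun p => ⟨0, fun x y _ _ => by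
      simpa using f.abs_sub_le x y⟩)
    have h2 : ‖S n f‖ ≤ ‖S n f - f‖ + ‖f‖ := by
      have := norm_add_le (S n f - f) f
      simpa using this
    linarith
  have hTb : ∀ n, ‖T n‖ ≤ C + 1 := by
    intro n
    refine ContinuousLinearMap.opNorm_le_bound _ (by positivity) (fun μ => ?_)
    have : ‖T n μ‖ = ‖(T n μ).1‖ := rfl
    rw [this]
    refine ContinuousLinearMap.opNorm_le_bound _ (by positivity) (fun f => ?_)
    rw [hTS]
    calc ‖μ.1 (S n f)‖ ≤ ‖μ.1‖ * ‖S n f‖ := μ.1.le_opNorm _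
      _ ≤ ‖μ.1‖ * ((C + 1) * ‖f‖) := mul_le_mul_of_nonneg_left (hSb n f) (norm_nonneg _)
      _ = (C + 1) * ‖μ‖ * ‖f‖ := by
        have : ‖μ‖ = ‖μ.1‖ := rfl
        rw [this]; ring
  refine hasCommutingBAP_of (Z := ZZ o) T hTZ (C + 1) hTb ?_ ?_
  · -- strong convergence
    have hdl : ∀ x : K, Tendsto (fun n => T n (dl x)) atTop (𝓝 (dl x)) := by
      intro x
      rw [tendsto_iff_norm_sub_tendsto_zero]
      have h1 : ∀ n, ‖T n (dl x) - dl x‖ ≤ C * (1 / ((n : ℝ) + 1)) := by
        intro n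
        have : ‖T n (dl x) - dl x‖ = ‖(T n (dl x)).1 - (dl x).1‖ := rfl
        rw [this]
        refine ContinuousLinearMap.opNorm_le_bound _ (by positivity) (fun f => ?_)
        rw [sub_apply, hTS]
        have h2 := hSpt n f x
        have h3 : (dl x : LipFree K o).1 (S n f) = (S n f).1 x := rfl
        have h4 : (dl x : LipFree K o).1 f = f.1 x := rfl
        rw [h3, h4, Real.norm_eq_abs]
        calc |(S n f).1 x - f.1 x| ≤ C * ‖f‖ * (1 / ((n : ℝ) + 1)) := h2
          _ = C * (1 / ((n : ℝ) + 1)) * ‖f‖ := by ring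
      have h5 : Tendsto (fun n : ℕ => C * (1 / ((n : ℝ) + 1))) atTop (𝓝 (C * 0)) :=
        tendsto_one_div_add_atTop_nhds_zero_nat.const_mul C
      rw [mul_zero] at h5
      exact squeeze_zero (fun n => norm_nonneg _) h1 h5
    -- the set of good points is a closed subspace
    have hle : ∀ ν ∈ Submodule.span ℝ (Set.range (delta K o)), ν ∈ freeSubmodule K o :=
      fun ν hν => Submodule.le_topologicalClosure _ hν
    have hspan : ∀ ν ∈ Submodule.span ℝ (Set.range (delta K o)), ∀ hν : ν ∈ freeSubmodule K o,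
        Tendsto (fun n => T n (mkF ν hν)) atTop (𝓝 (mkF ν hν)) := by
      intro ν hν
      induction hν using Submodule.span_induction with
      | mem ν h =>
        obtain ⟨x, rfl⟩ := h
        intro hν
        exact hdl x
      | zero =>
        intro hν
        rw [mkF_zero]
        simp
      | add a b ha' hb' ha hb =>
        intro hν
        have h1 := (ha (hle a ha')).add (hb (hle b hb'))
        rw [mkF_add (hle a ha') (hle b hb') hν] at h1
        refine h1.congr (fun n => ?_)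
        rw [← map_add, mkF_add (hle a ha') (hle b hb') hν]
      | smul c a ha' ha =>
        intro hν
        have h1 := (ha (hle a ha')).const_smul c
        rw [mkF_smul c (hle a ha') hν] at h1
        refine h1.congr (fun n => ?_)
        rw [← map_smul, mkF_smul c (hle a ha') hν]
    intro μ
    rw [Metric.tendsto_atTop]
    intro ε hε
    have hμ : μ.1 ∈ closure (Submodule.span ℝ (Set.range (delta K o)) : Set (StrongDual ℝ (Lip0 K o))) := by
      have h : μ.1 ∈ (Submodule.span ℝ (Set.range (delta K o))).topologicalClosure := μ.2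
      rw [← SetLike.mem_coe, Submodule.topologicalClosure_coe] at h
      exact h
    obtain ⟨ν, hν, hμν⟩ := Metric.mem_closure_iff.mp hμ (ε / (2 * (C + 2))) (by positivity)
    have hν2 : ν ∈ freeSubmodule K o := Submodule.le_topologicalClosure _ hν
    set ν' : LipFree K o := mkF ν hν2 with hν'
    have hd : ‖μ - ν'‖ < ε / (2 * (C + 2)) := by
      have : ‖μ - ν'‖ = ‖μ.1 - ν‖ := rfl
      rw [this, ← dist_eq_norm]
      exact hμν
    obtain ⟨n0, hn0⟩ := Metric.tendsto_atTop.mp (hspan ν hν hν2) (ε / 2) (by positivity)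
    refine ⟨n0, fun n hn => ?_⟩
    have h1 := hn0 n hn
    rw [dist_eq_norm] at h1 ⊢
    have h2 : T n μ - μ = T n (μ - ν') + (T n ν' - ν') - (μ - ν') := by
      rw [map_sub]; abel
    rw [h2]
    calc ‖T n (μ - ν') + (T n ν' - ν') - (μ - ν')‖
        ≤ ‖T n (μ - ν') + (T n ν' - ν')‖ + ‖μ - ν'‖ := norm_sub_le _ _
      _ ≤ ‖T n (μ - ν')‖ + ‖T n ν' - ν'‖ + ‖μ - ν'‖ := by
          gcongr
          exact norm_add_le _ _
      _ ≤ (C + 1) * ‖μ - ν'‖ + ‖T n ν' - ν'‖ + ‖μ - ν'‖ := by
          gcongr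
          exact (T n).le_of_opNorm_le (hTb n) _
      _ < (C + 1) * ‖μ - ν'‖ + ε / 2 + ‖μ - ν'‖ := by
          gcongr
      _ = (C + 2) * ‖μ - ν'‖ + ε / 2 := by ring
      _ < (C + 2) * (ε / (2 * (C + 2))) + ε / 2 := by
          gcongr
      _ = ε := by
          have : C + 2 ≠ 0 := by positivity
          field_simp
          ring
  · -- convergence of adjoints on ZZ
    rintro _ ⟨F, f, hF, hf, rfl⟩
    have hlim : Tendsto (fun n => ‖S n f - f‖) atTop (𝓝 0) := by
      rw [Metric.tendsto_atTop]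
      intro ε hε
      obtain ⟨ρ, hρ, hρF⟩ := uniform_C1 hK hF (ε := ε / (C + 1)) (by positivity)
      obtain ⟨n0, hn0⟩ := exists_nat_one_div_lt (show (0:ℝ) < ρ / R by positivity)
      refine ⟨n0, fun n hn => ?_⟩
      have hn' : R * (1 / ((n : ℝ) + 1)) < ρ := by
        have h1 : 1 / ((n : ℝ) + 1) ≤ 1 / ((n0 : ℝ) + 1) := by
          apply one_div_le_one_div_of_le (by positivity)
          have : (n0 : ℝ) ≤ n := by exact_mod_cast hn
          linarith
        have h2 : 1 / ((n : ℝ) + 1) < ρ / R := lt_of_le_of_lt h1 hn0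
        rw [lt_div_iff₀ hRpos] at h2
        linarith
      have h3 := hSn n f (ε / (C + 1)) (by positivity) (fun p => by
        obtain ⟨ℓ, hℓ⟩ := hρF p
        refine ⟨ℓ, fun x y hx hy => ?_⟩
        have := hℓ x y (lt_of_le_of_lt hx hn') (lt_of_le_of_lt hy hn')
        rw [hf, hf]
        have e : F x - F o - (F y - F o) - ℓ (x - y) = F x - F y - ℓ (x - y) := by ring
        rw [e]
        exact this)
      rw [dist_zero_right, norm_norm]
      refine lt_of_le_of_lt h3 ?_
      rw [mul_div_assoc', div_lt_iff₀ (by positivity)]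
      nlinarith
    rw [tendsto_iff_norm_sub_tendsto_zero]
    refine squeeze_zero (fun n => norm_nonneg _) (fun n => ?_) hlim
    have h1 : (ev f).comp (T n) - ev f = ev (S n f - f) := by
      ext μ
      simp only [sub_apply, ContinuousLinearMap.comp_apply, ev_apply, map_sub, hTS]
    rw [h1]
    exact norm_ev_le _

end

end Pool.Agent.H63.Free
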