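import Mathlib

set_option autoImplicit false
open Filter Topology

namespace Pool.Agent.H63.Free

/-- One-dimensional bump with telescoping integer translates. -/
noncomputable def eta (t : ℝ) : ℝ := Real.smoothTransition (t + 1) - Real.smoothTransition t

theorem eta_of_le {t : ℝ} (h : t ≤ -1) : eta t = 0 := by
  unfold eta
  rw [Real.smoothTransition.zero_of_nonpos (by linarith),
    Real.smoothTransition.zero_of_nonpos (by linarith), sub_zero]

theorem eta_of_ge {t : ℝ} (h : 1 ≤ t) : eta t = 0 := by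
  unfold eta
  rw [Real.smoothTransition.one_of_one_le (by linarith),
    Real.smoothTransition.one_of_one_le h, sub_self]

theorem abs_lt_of_eta {t : ℝ} (h : eta t ≠ 0) : |t| < 1 := by
  rw [abs_lt]
  constructor
  · by_contra hcon
    exact h (eta_of_le (not_lt.mp hcon))
  · by_contra hcon
    exact h (eta_of_ge (not_lt.mp hcon))

theorem abs_eta_le (t : ℝ) : |eta t| ≤ 1 := by
  unfold eta
  rw [abs_le]
  have h1 := Real.smoothTransition.nonneg (t + 1)
  have h2 := Real.smoothTransition.le_one (t + 1)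
  have h3 := Real.smoothTransition.nonneg t
  have h4 := Real.smoothTransition.le_one t
  constructor <;> linarith

theorem contDiff_eta : ContDiff ℝ 1 eta := by
  unfold eta
  have h : ContDiff ℝ 1 Real.smoothTransition := Real.smoothTransition.contDiff (n := 1)
  exact (h.comp (contDiff_id.add contDiff_const)).sub h

theorem sum_eta (N : ℕ) {t : ℝ} (ht : |t| ≤ N) :
    ∑ l ∈ Finset.range (2 * N + 1), eta (t + N - l) = 1 := by
  have h1 : ∀ l : ℕ, eta (t + N - l) = Real.smoothTransition (t + N + 1 - (l : ℕ)) -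
      Real.smoothTransition (t + N + 1 - ((l + 1 : ℕ) : ℝ)) := by
    intro l
    unfold eta
    congr 2
    · ring
    · push_cast; ring
  simp only [h1]
  rw [Finset.sum_range_sub' (fun l : ℕ => Real.smoothTransition (t + N + 1 - (l : ℝ)))]
  obtain ⟨h2, h3⟩ := abs_le.mp ht
  rw [Real.smoothTransition.one_of_one_le, Real.smoothTransition.zero_of_nonpos]
  · ring
  · push_cast; linarith
  · push_cast; linarith

section
variable {d : ℕ}

/-- The product bump on `ℝ^d`. -/
noncomputable def Phi (x : EuclideanSpace ℝ (Fin d)) : ℝ := ∏ i, eta (x i)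

theorem contDiff_coord (i : Fin d) : ContDiff ℝ 1 (fun x : EuclideanSpace ℝ (Fin d) => x i) :=
  (EuclideanSpace.proj (𝕜 := ℝ) i).contDiff

theorem contDiff_Phi : ContDiff ℝ 1 (Phi (d := d)) := by
  unfold Phi
  exact contDiff_prod (fun i _ => contDiff_eta.comp (contDiff_coord i))

theorem abs_Phi_le (x : EuclideanSpace ℝ (Fin d)) : |Phi x| ≤ 1 := by
  unfold Phi
  rw [Finset.abs_prod]
  exact Finset.prod_le_one (fun i _ => abs_nonneg _) (fun i _ => abs_eta_le _)

theorem coord_of_Phi {x : EuclideanSpace ℝ (Fin d)} (h : Phi x ≠ 0) (i : Fin d) : |x i| < 1 := by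
  unfold Phi at h
  exact abs_lt_of_eta (Finset.prod_ne_zero_iff.mp h i (Finset.mem_univ i))

theorem norm_le_of_coord {x : EuclideanSpace ℝ (Fin d)} {c : ℝ} (hc : 0 ≤ c)
    (h : ∀ i, |x i| ≤ c) : ‖x‖ ≤ Real.sqrt d * c := by
  rw [EuclideanSpace.norm_eq]
  have h1 : ∑ i, ‖x i‖ ^ 2 ≤ d * c ^ 2 := by
    calc ∑ i, ‖x i‖ ^ 2 ≤ ∑ _i : Fin d, c ^ 2 := by
          apply Finset.sum_le_sum
          intro i _
          rw [Real.norm_eq_abs]
          exact pow_le_pow_left₀ (abs_nonneg _) (h i) 2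
      _ = d * c ^ 2 := by simp
  calc Real.sqrt (∑ i, ‖x i‖ ^ 2) ≤ Real.sqrt (d * c ^ 2) := Real.sqrt_le_sqrt h1
    _ = Real.sqrt d * c := by
      rw [Real.sqrt_mul (Nat.cast_nonneg d), Real.sqrt_sq hc]

theorem lipschitz_Phi : ∃ L : ℝ, 0 ≤ L ∧ ∀ x y : EuclideanSpace ℝ (Fin d),
    |Phi x - Phi y| ≤ L * ‖x - y‖ := by
  have hcs : HasCompactSupport (Phi (d := d)) := by
    apply HasCompactSupport.intro (isCompact_closedBall (0 : EuclideanSpace ℝ (Fin d)) (Real.sqrt d * 1))
    intro x hx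
    by_contra hcon
    apply hx
    rw [mem_closedBall_zero_iff]
    exact norm_le_of_coord zero_le_one (fun i => (coord_of_Phi hcon i).le)
  obtain ⟨C, hC⟩ := ContDiff.lipschitzWith_of_hasCompactSupport hcs contDiff_Phi (by norm_num)
  refine ⟨C, C.2, fun x y => ?_⟩
  have := hC.dist_le_mul x y
  rwa [Real.dist_eq, dist_eq_norm] at this

/-- The shift vector. -/
noncomputable def shiftVec (N : ℕ) (l : Fin d → ℕ) : EuclideanSpace ℝ (Fin d) :=
  WithLp.toLp 2 (fun i => (N : ℝ) - l i)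

/-- The partition functions at scale `s`. -/
noncomputable def psi (N : ℕ) (s : ℝ) (l : Fin d → ℕ) (x : EuclideanSpace ℝ (Fin d)) : ℝ :=
  Phi (s⁻¹ • x + shiftVec N l)

theorem contDiff_psi (N : ℕ) (s : ℝ) (l : Fin d → ℕ) : ContDiff ℝ 1 (psi N s l) := by
  unfold psi
  exact contDiff_Phi.comp ((contDiff_const_smul _).add contDiff_const)

theorem abs_psi_le (N : ℕ) (s : ℝ) (l : Fin d → ℕ) (x : EuclideanSpace ℝ (Fin d)) :
    |psi N s l x| ≤ 1 := abs_Phi_le _

theorem psi_lip {L : ℝ} (hL : ∀ x y : EuclideanSpace ℝ (Fin d), |Phi x - Phi y| ≤ L * ‖x - y‖)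
    (N : ℕ) {s : ℝ} (hs : 0 < s) (l : Fin d → ℕ) (x y : EuclideanSpace ℝ (Fin d)) :
    |psi N s l x - psi N s l y| ≤ L / s * ‖x - y‖ := by
  unfold psi
  refine (hL _ _).trans ?_
  have : s⁻¹ • x + shiftVec N l - (s⁻¹ • y + shiftVec N l) = s⁻¹ • (x - y) := by
    rw [smul_sub]; abel
  rw [this, norm_smul, Real.norm_of_nonneg (inv_nonneg.mpr hs.le), ← mul_assoc, div_eq_mul_inv]

theorem psi_coord {N : ℕ} {s : ℝ} {l : Fin d → ℕ} {x : EuclideanSpace ℝ (Fin d)}
    (h : psi N s l x ≠ 0) (i : Fin d) : |x i / s + N - l i| < 1 := by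
  have := coord_of_Phi h i
  have h2 : (s⁻¹ • x + shiftVec N l) i = x i / s + N - l i := by
    simp only [shiftVec, PiLp.add_apply, PiLp.smul_apply, smul_eq_mul]
    ring
  rwa [h2] at this

theorem psi_eq_prod (N : ℕ) (s : ℝ) (l : Fin d → ℕ) (x : EuclideanSpace ℝ (Fin d)) :
    psi N s l x = ∏ i, eta (x i / s + N - l i) := by
  unfold psi Phi
  apply Finset.prod_congr rfl
  intro i _
  congr 1
  simp only [shiftVec, PiLp.add_apply, PiLp.smul_apply, smul_eq_mul]
  ring

theorem sum_psi (N : ℕ) {s : ℝ} (hs : 0 < s) {x : EuclideanSpace ℝ (Fin d)}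
    (hx : ‖x‖ ≤ N * s) :
    ∑ l ∈ Fintype.piFinset (fun _ : Fin d => Finset.range (2 * N + 1)), psi N s l x = 1 := by
  simp only [psi_eq_prod]
  rw [← Finset.prod_univ_sum (fun _ => Finset.range (2 * N + 1))
    (fun i (l : ℕ) => eta (x i / s + N - l))]
  apply Finset.prod_eq_one
  intro i _
  apply sum_eta
  rw [abs_div, abs_of_pos hs, div_le_iff₀ hs]
  have : |x i| ≤ ‖x‖ := PiLp.norm_apply_le x i
  linarith

theorem card_psi (N : ℕ) (s : ℝ) (J : Finset (Fin d → ℕ)) (x : EuclideanSpace ℝ (Fin d)) :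
    (J.filter (fun l => psi N s l x ≠ 0)).card ≤ 2 ^ d := by
  classical
  have hsub : J.filter (fun l => psi N s l x ≠ 0) ⊆
      Fintype.piFinset (fun i : Fin d => {⌊x i / s + N⌋₊, ⌊x i / s + N⌋₊ + 1}) := by
    intro l hl
    rw [Fintype.mem_piFinset]
    intro i
    have h := psi_coord (Finset.mem_filter.mp hl).2 i
    obtain ⟨h1, h2⟩ := abs_lt.mp h
    set a := x i / s + N with ha
    simp only [Finset.mem_insert, Finset.mem_singleton]
    have ha1 : (l i : ℝ) < a + 1 := by linarith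
    have ha2 : a - 1 < (l i : ℝ) := by linarith
    rcases lt_or_ge a 0 with hneg | hnn
    · have : ⌊a⌋₊ = 0 := Nat.floor_of_nonpos hneg.le
      rw [this]
      have : (l i : ℝ) < 1 := by linarith
      have : l i < 1 := by exact_mod_cast this
      omega
    · have h3 : (⌊a⌋₊ : ℝ) ≤ a := Nat.floor_le hnn
      have h4 : a < ⌊a⌋₊ + 1 := Nat.lt_floor_add_one a
      have h5 : (l i : ℝ) < (⌊a⌋₊ : ℝ) + 2 := by linarith
      have h6 : (⌊a⌋₊ : ℝ) < (l i : ℝ) + 1 := by linarith
      have h5' : l i < ⌊a⌋₊ + 2 := by exact_mod_cast h5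
      have h6' : ⌊a⌋₊ < l i + 1 := by exact_mod_cast h6
      omega
  refine (Finset.card_le_card hsub).trans ?_
  rw [Fintype.card_piFinset]
  calc ∏ i : Fin d, ({⌊x i / s + N⌋₊, ⌊x i / s + N⌋₊ + 1} : Finset ℕ).card
      ≤ ∏ _i : Fin d, 2 := Finset.prod_le_prod' (fun i _ => Finset.card_le_two)
    _ = 2 ^ d := by simp

theorem psi_near {N : ℕ} {s : ℝ} (hs : 0 < s) {l : Fin d → ℕ} {x y : EuclideanSpace ℝ (Fin d)}
    (hx : psi N s l x ≠ 0) (hy : psi N s l y ≠ 0) : ‖x - y‖ ≤ Real.sqrt d * (2 * s) := by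
  apply norm_le_of_coord (by positivity)
  intro i
  have h1 := psi_coord hx i
  have h2 := psi_coord hy i
  have h3 : |x i / s - y i / s| ≤ 2 := by
    rw [abs_lt] at h1 h2
    rw [abs_le]
    constructor <;> linarith
  have h4 : (x - y) i = (x i / s - y i / s) * s := by
    simp only [PiLp.sub_apply]
    field_simp
  rw [h4, abs_mul, abs_of_pos hs]
  exact mul_le_mul_of_nonneg_right h3 hs.le

end

end Pool.Agent.H63.Free
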